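import Mathlib
import Pool.Agent.Run7.h15.CB.Lev

set_option autoImplicit false

/-!
# Sets invariant under the Collatz map have level of distribution one on average

Let `S` be a set of integers which is invariant under the Collatz map and its inverse (the basin of a
cycle, the set of the integers that reach one of the five known cycles, ...), and let `δ` be its density
among the integers of sign `s`. In the mean over the residue classes `c` modulo `q` and over ALL moduli
`q ≤ Q`, the set `S` is equidistributed in the classes, for all `Q` up to `N / K`, where `K` depends on the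
error only: the progressions may have as few as `K` terms. The function `1_S - δ` may moreover be
multiplied by an arbitrary multiplicative function with values in the unit disc and a linear phase, or by
a polynomial phase, and the sums may be cut off at arbitrary points `Y(q, c) ≤ N`. Individual moduli: at
most `K (1 + Q ^ 2 / N)` pairwise coprime moduli are bad. The starting results cover moduli up to a small
power of `N`.

Proof: the class sums to BOUNDED moduli are small because `1_S - δ` is orthogonal to all multiplicative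
functions twisted by linear phases and has small Gowers norms (starting results `W41`, `W36`). A theorem of
Barban-Davenport-Halberstam type for arbitrary bounded functions (`Run7/h17`: large sieve for the moduli
below `√N`, duality `q ↔ N / q` for the larger ones) gives all moduli.
-/

namespace Pool.Agent.Results.MP_d02c56_nt.LevelOne

open Finset Filter Topology

/-- The Collatz map on the integers. -/
def C (x : ℤ) : ℤ := if x % 2 = 0 then x / 2 else 3 * x + 1

/-- `S` is invariant under the Collatz map and its inverse. -/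
def Invariant (S : Set ℤ) : Prop := ∀ x : ℤ, x ∈ S ↔ C x ∈ S

/-- Among the integers of sign `s` the set `S` has natural density `δ`. -/
def HasDensity (s : ℤ) (S : Set ℤ) (δ : ℝ) : Prop :=
  Tendsto (fun N : ℕ => ({n : ℤ | 0 < s * n ∧ s * n ≤ N ∧ n ∈ S}.ncard : ℝ) / N) atTop (𝓝 δ)

/-- `exp (2 π i θ)` -/
noncomputable def e (θ : ℝ) : ℂ := Complex.exp (2 * Real.pi * θ * Complex.I)

/-- A multiplicative function with values in the closed unit disc. -/
def Multiplicative (g : ℕ → ℂ) : Prop :=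
  (∀ n, ‖g n‖ ≤ 1) ∧ ∀ m n : ℕ, Nat.Coprime m n → g (m * n) = g m * g n

/-- The weights: a multiplicative function with values in the unit disc times a linear phase, or a
polynomial phase of degree at most `k`. -/
def Weight (k : ℕ) (w : ℕ → ℂ) : Prop :=
  (∃ (g : ℕ → ℂ) (α : ℝ), Multiplicative g ∧ ∀ n, w n = g n * e (α * n)) ∨
  (∃ P : Polynomial ℝ, P.natDegree ≤ k ∧ ∀ n, w n = e (P.eval (n : ℝ)))

/-- The sum of `(1_S (s n) - δ) w n` over the `n ≤ y` with `n ≡ c` modulo `q` (`c < q`). -/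
noncomputable def ClassSum (s : ℤ) (S : Set ℤ) (δ : ℝ) (w : ℕ → ℂ) (q c y : ℕ) : ℂ :=
  ∑ n ∈ (Icc 1 y).filter (fun n => n % q = c), ((S.indicator (fun _ => (1 : ℝ)) (s * n) - δ : ℝ) : ℂ) * w n

/-- `E` is a set of the form `{n ∈ D : h n = a}` with a set `D` whose indicator function is multiplicative
and an additive function `h` with values in a finite abelian group. -/
def Arithmetic (E : Set ℕ) : Prop :=
  ∃ (G : Type) (_ : AddCommGroup G) (_ : Finite G) (D : Set ℕ) (h : ℕ → G) (a : G),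
    (∀ m n : ℕ, Nat.Coprime m n → (m * n ∈ D ↔ m ∈ D ∧ n ∈ D)) ∧
    (∀ m n : ℕ, Nat.Coprime m n → h (m * n) = h m + h n) ∧
    ∀ n : ℕ, n ∈ E ↔ n ∈ D ∧ h n = a

/-- The number of the `n ≤ y` in `E` with `n ≡ c` modulo `q` and `s n ∈ S`. -/
noncomputable def Count (s : ℤ) (S : Set ℤ) (E : Set ℕ) (q c y : ℕ) : ℕ :=
  {n : ℕ | 1 ≤ n ∧ n ≤ y ∧ n % q = c ∧ n ∈ E ∧ s * n ∈ S}.ncard

/-- The pairs `(q, c)`, `1 ≤ q ≤ Q`, `c < q`, such that `s n ∈ S` for no positive `n ≤ N` with `n ≡ c`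
modulo `q`. -/
def Free (s : ℤ) (S : Set ℤ) (Q N : ℕ) : Set (ℕ × ℕ) :=
  {p | 1 ≤ p.1 ∧ p.1 ≤ Q ∧ p.2 < p.1 ∧ ∀ n : ℕ, 1 ≤ n → n ≤ N → n % p.1 = p.2 → s * (n : ℤ) ∉ S}

/-- The union of the five known cycles. -/
def Known : Finset ℤ := {1, 4, 2, -1, -2, -5, -14, -7, -20, -10, -17, -50, -25, -74, -37, -110,
  -55, -164, -82, -41, -122, -61, -182, -91, -272, -136, -68, -34, 0}

/-- The trajectory of `x` reaches one of the five known cycles. -/
def Reaches (x : ℤ) : Prop := ∃ k : ℕ, C^[k] x ∈ Known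

theorem known_closed : ∀ x ∈ Known, C x ∈ Known := by decide

theorem reaches_inv : Invariant {x | Reaches x} := by
  intro x
  constructor
  · rintro ⟨k, hk⟩
    cases k with
    | zero => exact ⟨0, known_closed x hk⟩
    | succ k => exact ⟨k, by rw [Function.iterate_succ_apply] at hk; exact hk⟩
  · rintro ⟨k, hk⟩
    exact ⟨k + 1, by rw [Function.iterate_succ_apply]; exact hk⟩

open Pool.Agent.H499R2.ND Pool.Agent.H499R2.CO Pool.Agent.W41.FU Pool.Agent.W41
open Pool.Agent.W41.MU (MulSet AddFun gch gch_mul)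
open Pool.Agent.Run7.h17.BDH (cs)

theorem inv_of {S : Set ℤ} (hS : Invariant S) : Inv 1 S := by
  intro x
  have e : Td 1 x = C x ∨ Td 1 x = C (C x) := by
    unfold Td C
    by_cases h : x % 2 = 0
    · left; simp [h]
    · right
      have h2 : (3 * x + 1) % 2 = 0 := by omega
      simp [h, h2]
  rcases e with h | h
  · rw [h]; exact hS x
  · rw [h]; exact (hS x).trans (hS (C x))

theorem HD_iff {s : ℤ} (hs : s = 1 ∨ s = -1) {S : Set ℤ} (hS : Invariant S) :
    ∃ δ : ℝ, HD s S δ ∧ HasDensity s S δ := by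
  obtain ⟨δ, -, -, h⟩ := dens_side (d := 1) odd_one (by norm_num) hs (inv_of hS)
  exact ⟨δ, h, HD_ncard hs h⟩

theorem ind_eq (s : ℤ) (S : Set ℤ) (δ : ℝ) (x : ℤ) : S.indicator (fun _ => (1 : ℝ)) (s * x) - δ = bal s S δ x := by
  unfold bal ind
  by_cases h : s * x ∈ S
  · rw [Set.indicator_of_mem h, if_pos h]
  · rw [Set.indicator_of_notMem h, if_neg h]

theorem cs_eq (s : ℤ) (S : Set ℤ) (δ : ℝ) (w : ℕ → ℂ) (q c y : ℕ) :
    ClassSum s S δ w q c y = cs (Pool.Agent.Run7.h15.CB.fn s S δ w) q c y := by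
  unfold ClassSum cs Pool.Agent.Run7.h15.CB.fn
  rw [sum_filter]
  apply sum_congr rfl
  intro n _
  by_cases h : n % q = c
  · rw [if_pos h, if_pos h, ind_eq]
  · rw [if_neg h, if_neg h]

theorem wt_of {k : ℕ} {w : ℕ → ℂ} (h : Weight k w) : Pool.Agent.Run7.h15.CB.Wt k w := h

/-- the constant weight -/
theorem wt_one (k : ℕ) : Weight k (fun _ => 1) := by
  refine Or.inl ⟨fun _ => 1, 0, ⟨fun n => by simp, fun m n _ => by simp⟩, fun n => ?_⟩
  unfold e
  simp

/-- counting -/
theorem countE {s : ℤ} (hs : s = 1 ∨ s = -1) {ε : ℝ} (hε : 0 < ε) :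
    ∃ K : ℕ, ∀ S : Set ℤ, Invariant S → ∃ δ : ℝ, HasDensity s S δ ∧
      ∀ N : ℕ, K ≤ N → ∀ E : Set ℕ, Arithmetic E → ∀ Q : ℕ, K * Q ≤ N → ∀ Y : ℕ → ℕ → ℕ, (∀ q c, Y q c ≤ N) →
        ∑ q ∈ Icc 1 Q, ∑ c ∈ range q,
          |(Count s S E q c (Y q c) : ℝ) - δ * Count s Set.univ E q c (Y q c)| ≤ ε * (Q * N) := by
  classical
  obtain ⟨K, hK, H⟩ := Pool.Agent.Run7.h15.CB.main hs 0 hε
  refine ⟨K, fun S hS => ?_⟩
  obtain ⟨δ, hδ, hδ'⟩ := HD_iff hs hS
  refine ⟨δ, hδ', fun N hN E hE Q hQ Y hY => ?_⟩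
  obtain ⟨G, _, _, D, h, a, hD, hh, hE⟩ := hE
  haveI := Fintype.ofFinite G
  have e0 : ∀ (T : Set ℤ) (q c y : ℕ), (Count s T E q c y : ℝ) =
      ∑ n ∈ Icc 1 y, if n % q = c then (if n ∈ E ∧ s * (n : ℤ) ∈ T then (1 : ℝ) else 0) else 0 := by
    intro T q c y
    have e1 : {n : ℕ | 1 ≤ n ∧ n ≤ y ∧ n % q = c ∧ n ∈ E ∧ s * n ∈ T} =
        ((Icc 1 y).filter (fun n : ℕ => n % q = c ∧ n ∈ E ∧ s * (n : ℤ) ∈ T) : Finset ℕ) := by
      ext n
      simp only [Set.mem_setOf_eq, coe_filter, mem_Icc]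
      tauto
    unfold Count
    rw [e1, Set.ncard_coe_finset, card_filter]
    push_cast
    apply sum_congr rfl
    intro n _
    by_cases h1 : n % q = c
    · simp [h1]
    · simp [h1]
  have hG : (0 : ℝ) < Fintype.card G := by exact_mod_cast Fintype.card_pos
  have hG' : (Fintype.card G : ℂ) ≠ 0 := by exact_mod_cast hG.ne'
  have key : ∀ q c y : ℕ, (Fintype.card G : ℝ) * |(Count s S E q c y : ℝ) - δ * Count s Set.univ E q c y| ≤
      ∑ ψ : AddChar G ℂ, ‖cs (Pool.Agent.Run7.h15.CB.fn s S δ (gch D h ψ)) q c y‖ := by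
    intro q c y
    have e2 : ((((Fintype.card G : ℝ) * ((Count s S E q c y : ℝ) - δ * Count s Set.univ E q c y) : ℝ)) : ℂ)
        = ∑ ψ : AddChar G ℂ, ψ (-a) * cs (Pool.Agent.Run7.h15.CB.fn s S δ (gch D h ψ)) q c y := by
      rw [e0, e0]
      unfold cs Pool.Agent.Run7.h15.CB.fn
      simp_rw [mul_sum]
      rw [sum_comm, ← sum_sub_distrib, mul_sum]
      push_cast
      apply sum_congr rfl
      intro n _
      by_cases h1 : n % q = c
      · simp only [if_pos h1]
        have e3 : ∑ ψ : AddChar G ℂ, ψ (-a) * ((bal s S δ (n : ℤ) : ℂ) * gch D h ψ n)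
            = (bal s S δ (n : ℤ) : ℂ) * (if n ∈ D then ∑ ψ : AddChar G ℂ, ψ (h n - a) else 0) := by
          by_cases h2 : n ∈ D
          · rw [if_pos h2, mul_sum]
            apply sum_congr rfl
            intro ψ _
            unfold gch
            rw [if_pos h2, sub_eq_add_neg, AddChar.map_add_eq_mul]
            ring
          · rw [if_neg h2, mul_zero]
            apply sum_eq_zero
            intro ψ _
            unfold gch
            rw [if_neg h2]
            ring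
        rw [e3, AddChar.sum_apply_eq_ite]
        have h3 : n ∈ E ↔ n ∈ D ∧ h n - a = 0 := by rw [hE, sub_eq_zero]
        unfold bal ind
        by_cases h4 : n ∈ D
        · by_cases h5 : h n - a = 0
          · have h6 : n ∈ E := h3.2 ⟨h4, h5⟩
            by_cases h7 : s * (n : ℤ) ∈ S
            · simp only [h4, h5, h6, h7, if_true, and_self, Set.mem_univ]
              push_cast
              ring
            · simp only [h4, h5, h6, h7, if_true, if_false, and_self, and_true, and_false, Set.mem_univ]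
              push_cast
              ring
          · have h6 : n ∉ E := fun h => h5 (h3.1 h).2
            simp [h4, h5, h6]
        · have h6 : n ∉ E := fun h => h4 (h3.1 h).1
          simp [h4, h6]
      · simp [h1]
    have e4 : (Fintype.card G : ℝ) * |(Count s S E q c y : ℝ) - δ * Count s Set.univ E q c y|
        = ‖((((Fintype.card G : ℝ) * ((Count s S E q c y : ℝ) - δ * Count s Set.univ E q c y) : ℝ)) : ℂ)‖ := by
      rw [Complex.norm_real, Real.norm_eq_abs, abs_mul, abs_of_pos hG]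
    rw [e4, e2]
    refine (norm_sum_le _ _).trans (sum_le_sum fun ψ _ => ?_)
    rw [norm_mul, ψ.norm_apply, one_mul]
  have hw : ∀ ψ : AddChar G ℂ, Pool.Agent.Run7.h15.CB.Wt 0 (gch D h ψ) := by
    intro ψ
    refine Or.inl ⟨gch D h ψ, 0, gch_mul hD hh ψ, fun n => ?_⟩
    unfold Pool.Agent.Run7.h15.CB.e
    simp
  have h2 : (Fintype.card G : ℝ) * ∑ q ∈ Icc 1 Q, ∑ c ∈ range q,
      |(Count s S E q c (Y q c) : ℝ) - δ * Count s Set.univ E q c (Y q c)| ≤ Fintype.card G * (ε * (Q * N)) := by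
    rw [mul_sum]
    simp_rw [mul_sum]
    calc ∑ q ∈ Icc 1 Q, ∑ c ∈ range q,
        (Fintype.card G : ℝ) * |(Count s S E q c (Y q c) : ℝ) - δ * Count s Set.univ E q c (Y q c)|
        ≤ ∑ q ∈ Icc 1 Q, ∑ c ∈ range q, ∑ ψ : AddChar G ℂ,
            ‖cs (Pool.Agent.Run7.h15.CB.fn s S δ (gch D h ψ)) q c (Y q c)‖ :=
          sum_le_sum fun q _ => sum_le_sum fun c _ => key q c _
      _ = ∑ ψ : AddChar G ℂ, ∑ q ∈ Icc 1 Q, ∑ c ∈ range q,
            ‖cs (Pool.Agent.Run7.h15.CB.fn s S δ (gch D h ψ)) q c (Y q c)‖ := by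
          rw [sum_congr rfl fun q _ => sum_comm]
          exact sum_comm
      _ ≤ ∑ ψ : AddChar G ℂ, ε * (Q * N) := sum_le_sum fun ψ _ => H S (inv_of hS) δ hδ N hN _ (hw ψ) Q hQ Y hY
      _ = Fintype.card G * (ε * (Q * N)) := by
          rw [sum_const, card_univ, AddChar.card_eq, nsmul_eq_mul]
  exact le_of_mul_le_mul_left h2 hG

/-- a class contains enough integers -/
theorem class_many {q c N : ℕ} (hc : c < q) : N / q ≤ ((Icc 1 N).filter (fun n => n % q = c)).card := by
  have h1 : ((range (N / q)).image (fun j => if c = 0 then (j + 1) * q else c + j * q)).card = N / q := by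
    rw [card_image_of_injective, card_range]
    intro i j hij
    have hq : 0 < q := by omega
    by_cases h : c = 0
    · simp only [h, if_true] at hij
      have := Nat.eq_of_mul_eq_mul_right hq hij
      omega
    · simp only [h, if_false] at hij
      exact Nat.eq_of_mul_eq_mul_right hq (by omega)
  rw [← h1]
  apply card_le_card
  intro n hn
  rw [mem_image] at hn
  obtain ⟨j, hj, rfl⟩ := hn
  rw [mem_range] at hj
  have hq : 0 < q := by omega
  have h2 : (j + 1) * q ≤ N := by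
    calc (j + 1) * q ≤ (N / q) * q := Nat.mul_le_mul_right q (by omega)
      _ ≤ N := Nat.div_mul_le_self N q
  rw [mem_filter, mem_Icc]
  by_cases h : c = 0
  · rw [if_pos h]
    refine ⟨⟨?_, h2⟩, ?_⟩
    · exact Nat.mul_pos (by omega) hq
    · rw [h]; exact Nat.mul_mod_left _ _
  · rw [if_neg h]
    have h3 : (j + 1) * q = j * q + q := by ring
    refine ⟨⟨by omega, by omega⟩, ?_⟩
    rw [Nat.add_mul_mod_self_right, Nat.mod_eq_of_lt hc]

theorem free_fin (s : ℤ) (S : Set ℤ) (Q N : ℕ) : (Free s S Q N).Finite := by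
  apply ((Icc 1 Q) ×ˢ (range (Q + 1)) : Finset (ℕ × ℕ)).finite_toSet.subset
  rintro ⟨q, c⟩ ⟨h1, h2, h3, -⟩
  simp only [coe_product, Set.mem_prod, mem_coe, mem_Icc, mem_range]
  simp only at h1 h2 h3
  omega

/-- few classes without elements of `S` -/
theorem few_free {s : ℤ} (hs : s = 1 ∨ s = -1) {S : Set ℤ} (hS : Invariant S) (hne : ∃ x ∈ S, 0 < s * x)
    {ε : ℝ} (hε : 0 < ε) : ∃ K : ℕ, ∀ N : ℕ, K ≤ N → ∀ Q : ℕ, K * Q ≤ N →
      ((Free s S Q N).ncard : ℝ) ≤ ε * Q ^ 2 := by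
  classical
  obtain ⟨δ, hδ, -⟩ := HD_iff hs hS
  obtain ⟨x, hx, hx0⟩ := hne
  have hδ0 : 0 < δ := one_pos hs (inv_of hS) hx hx0 hδ
  obtain ⟨K, hK, H⟩ := Pool.Agent.Run7.h15.CB.main hs 0 (show 0 < ε * δ / 2 by positivity)
  refine ⟨K + 1, fun N hN Q hQ => ?_⟩
  rcases Nat.eq_zero_or_pos Q with hQ0 | hQ0
  · have h1 : Free s S Q N = ∅ := by
      ext ⟨q, c⟩
      simp only [Set.mem_empty_iff_false, iff_false]
      rintro ⟨h1, h2, -⟩
      simp only at h1 h2
      omega
    rw [h1, Set.ncard_empty, Nat.cast_zero]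
    positivity
  have hQr : (0 : ℝ) < Q := by exact_mod_cast hQ0
  have hQN : Q ≤ N := le_trans (Nat.le_mul_of_pos_left Q (by omega)) hQ
  have hNr : (0 : ℝ) < N := by exact_mod_cast (by omega : 0 < N)
  have h1 := H S (inv_of hS) δ hδ N (by omega) _ (wt_of (wt_one 0)) Q
    (le_trans (Nat.mul_le_mul_right Q (by omega)) hQ) (fun _ _ => N) (fun _ _ => le_rfl)
  -- the bad pairs
  set F : Finset (ℕ × ℕ) := (free_fin s S Q N).toFinset with hF
  have h2 : ∀ p ∈ F, δ * N / (2 * Q) ≤ ‖cs (Pool.Agent.Run7.h15.CB.fn s S δ (fun _ => 1)) p.1 p.2 N‖ := by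
    intro p hp
    rw [hF, Set.Finite.mem_toFinset] at hp
    obtain ⟨hp1, hp2, hp3, hp4⟩ := hp
    have e1 : cs (Pool.Agent.Run7.h15.CB.fn s S δ (fun _ => 1)) p.1 p.2 N
        = -((δ : ℂ) * (((Icc 1 N).filter (fun n => n % p.1 = p.2)).card : ℂ)) := by
      rw [← cs_eq]
      unfold ClassSum
      have e2 : ∀ n ∈ (Icc 1 N).filter (fun n => n % p.1 = p.2),
          (((S.indicator (fun _ => (1 : ℝ)) (s * (n : ℤ)) - δ : ℝ) : ℂ)) * 1 = -(δ : ℂ) := by
        intro n hn
        rw [mem_filter, mem_Icc] at hn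
        rw [Set.indicator_of_notMem (hp4 n hn.1.1 hn.1.2 hn.2)]
        push_cast
        ring
      rw [sum_congr rfl e2, sum_const, nsmul_eq_mul]
      ring
    rw [e1, norm_neg, norm_mul, Complex.norm_natCast, Complex.norm_real, Real.norm_eq_abs, abs_of_pos hδ0]
    have h3 : (N : ℝ) / (2 * Q) ≤ (((Icc 1 N).filter (fun n => n % p.1 = p.2)).card : ℝ) := by
      have h4 := class_many (N := N) hp3
      have h5 : N / Q ≤ N / p.1 := Nat.div_le_div_left hp2 hp1
      have h6 : ((N / Q : ℕ) : ℝ) ≤ (((Icc 1 N).filter (fun n => n % p.1 = p.2)).card : ℝ) := by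
        exact_mod_cast h5.trans h4
      refine le_trans ?_ h6
      have h7 : 1 ≤ N / Q := Nat.div_pos hQN hQ0
      have h8 : N < (N / Q + 1) * Q := by
        have := Nat.div_add_mod N Q
        have h9 := Nat.mod_lt N hQ0
        nlinarith
      have h10 : (N : ℝ) < ((N / Q : ℕ) + 1) * Q := by exact_mod_cast h8
      have h11 : (1 : ℝ) ≤ ((N / Q : ℕ) : ℝ) := by exact_mod_cast h7
      rw [div_le_iff₀ (by positivity)]
      nlinarith
    calc δ * N / (2 * Q) = δ * (N / (2 * Q)) := by ring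
      _ ≤ _ := mul_le_mul_of_nonneg_left h3 hδ0.le
  have h3 : (F.card : ℝ) * (δ * N / (2 * Q)) ≤ ε * δ / 2 * (Q * N) := by
    calc (F.card : ℝ) * (δ * N / (2 * Q)) = ∑ p ∈ F, δ * N / (2 * Q) := by rw [sum_const, nsmul_eq_mul]
      _ ≤ ∑ p ∈ F, ‖cs (Pool.Agent.Run7.h15.CB.fn s S δ (fun _ => 1)) p.1 p.2 N‖ := sum_le_sum h2
      _ ≤ ∑ p ∈ (Icc 1 Q).sigma (fun q => range q),
            ‖cs (Pool.Agent.Run7.h15.CB.fn s S δ (fun _ => 1)) p.1 p.2 N‖ := by
          rw [← sum_image (s := F) (g := fun p : ℕ × ℕ => (⟨p.1, p.2⟩ : (_ : ℕ) × ℕ))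
            (f := fun p : (_ : ℕ) × ℕ => ‖cs (Pool.Agent.Run7.h15.CB.fn s S δ (fun _ => 1)) p.1 p.2 N‖)]
          · apply sum_le_sum_of_subset_of_nonneg
            · intro p hp
              rw [mem_image] at hp
              obtain ⟨⟨q, c⟩, hp, rfl⟩ := hp
              rw [hF, Set.Finite.mem_toFinset] at hp
              obtain ⟨hp1, hp2, hp3, -⟩ := hp
              simp only [mem_sigma, mem_Icc, mem_range]
              simp only at hp1 hp2 hp3
              exact ⟨⟨hp1, hp2⟩, hp3⟩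
            · intro _ _ _
              exact norm_nonneg _
          · rintro ⟨a, b⟩ _ ⟨c, d⟩ _ h
            simp only [Sigma.mk.injEq, heq_eq_eq] at h
            ext <;> simp [h.1, h.2]
      _ = ∑ q ∈ Icc 1 Q, ∑ c ∈ range q, ‖cs (Pool.Agent.Run7.h15.CB.fn s S δ (fun _ => 1)) q c N‖ := by
          rw [sum_sigma]
      _ ≤ ε * δ / 2 * (Q * N) := h1
  have h4 : ((Free s S Q N).ncard : ℝ) = F.card := by
    rw [hF, Set.ncard_eq_toFinset_card _ (free_fin s S Q N)]
  rw [h4]
  have h5 : (F.card : ℝ) * (δ * N / (2 * Q)) = F.card / Q * (δ * N / 2) := by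
    field_simp
  have h6 : ε * δ / 2 * (Q * N) = ε * Q * (δ * N / 2) := by ring
  rw [h5, h6] at h3
  have h7 := le_of_mul_le_mul_right h3 (by positivity)
  rw [div_le_iff₀ hQr] at h7
  linarith [h7]

/-- **Level of distribution one on average for the sets invariant under the Collatz map.**

(1) For every sign `s`, every `k` and every `ε > 0` there is `K` such that every invariant set `S` has a
density `δ` among the integers of sign `s`, and for all `N ≥ K`, all weights `w` (multiplicative function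
times linear phase, or polynomial phase of degree at most `k`) and ALL `Q ≤ N / K`:
the sum over all moduli `q ≤ Q` and all classes `c` modulo `q` of the absolute value of the sum of
`(1_S (s n) - δ) w n` over the `n ≤ Y(q, c)`, `n ≡ c` modulo `q`, is at most `ε Q N`, with arbitrary
cut-offs `Y(q, c) ≤ N`; and among pairwise coprime moduli `q ≤ Q` at most `K (1 + Q ^ 2 / N)` are such that
the sum over the classes `c` modulo `q` alone exceeds `ε N`, for some choice of the cut-offs.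

(2) For all arithmetic sets `E` (such as the integers with a given parity of the number of prime factors,
the squarefree integers, and combinations of such conditions) the number of the `n ≤ Y(q, c)` in `E` with
`n ≡ c` modulo `q` and `s n ∈ S` is `δ` times the number of the `n ≤ Y(q, c)` in `E` with `n ≡ c` modulo `q`,
up to errors whose sum over all classes of all moduli `q ≤ Q` is at most `ε Q N`.

(3) If the invariant set `S` contains an integer of sign `s` then for every `ε > 0` there is `K` such that for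
`K Q ≤ N` all but at most `ε Q ^ 2` of the residue classes `c` modulo `q`, `q ≤ Q`, contain an `n ≤ N` with
`s n ∈ S`.

(4) All integers of sign `s` reach one of the five known cycles if and only if there is `ε > 0` such that for
every `K` there are `Q ≥ 1` and `N ≥ K Q` such that all `s n`, `n ≤ N` in the class, do so for at least
`ε Q ^ 2` of the residue classes to moduli `q ≤ Q`. -/
theorem result :
    (∀ s : ℤ, (s = 1 ∨ s = -1) → ∀ (k : ℕ) (ε : ℝ), 0 < ε → ∃ K : ℕ, ∀ S : Set ℤ, Invariant S →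
      ∃ δ : ℝ, HasDensity s S δ ∧ ∀ N : ℕ, K ≤ N → ∀ w : ℕ → ℂ, Weight k w → ∀ Q : ℕ, K * Q ≤ N →
        (∀ Y : ℕ → ℕ → ℕ, (∀ q c, Y q c ≤ N) →
          ∑ q ∈ Icc 1 Q, ∑ c ∈ range q, ‖ClassSum s S δ w q c (Y q c)‖ ≤ ε * (Q * N)) ∧
        (∀ M : Finset ℕ, (∀ q ∈ M, 1 ≤ q ∧ q ≤ Q) → (∀ q ∈ M, ∀ q' ∈ M, q ≠ q' → Nat.Coprime q q') →
          (∀ q ∈ M, ∃ Y : ℕ → ℕ, (∀ c, Y c ≤ N) ∧ ε * N < ∑ c ∈ range q, ‖ClassSum s S δ w q c (Y c)‖) →
          (#M : ℝ) ≤ K * (1 + (Q : ℝ) ^ 2 / N))) ∧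
    (∀ s : ℤ, (s = 1 ∨ s = -1) → ∀ ε : ℝ, 0 < ε → ∃ K : ℕ, ∀ S : Set ℤ, Invariant S →
      ∃ δ : ℝ, HasDensity s S δ ∧ ∀ N : ℕ, K ≤ N → ∀ E : Set ℕ, Arithmetic E → ∀ Q : ℕ, K * Q ≤ N →
        ∀ Y : ℕ → ℕ → ℕ, (∀ q c, Y q c ≤ N) →
          ∑ q ∈ Icc 1 Q, ∑ c ∈ range q,
            |(Count s S E q c (Y q c) : ℝ) - δ * Count s Set.univ E q c (Y q c)| ≤ ε * (Q * N)) ∧
    (∀ s : ℤ, (s = 1 ∨ s = -1) → ∀ S : Set ℤ, Invariant S → (∃ x ∈ S, 0 < s * x) → ∀ ε : ℝ, 0 < ε →
      ∃ K : ℕ, ∀ N : ℕ, K ≤ N → ∀ Q : ℕ, K * Q ≤ N → ((Free s S Q N).ncard : ℝ) ≤ ε * Q ^ 2) ∧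
    (∀ s : ℤ, (s = 1 ∨ s = -1) →
      ((∀ x : ℤ, 0 < s * x → Reaches x) ↔
        ∃ ε : ℝ, 0 < ε ∧ ∀ K : ℕ, ∃ Q N : ℕ, 1 ≤ Q ∧ K * Q ≤ N ∧
          ε * (Q : ℝ) ^ 2 ≤ ((Free s {x | ¬ Reaches x} Q N).ncard : ℝ))) := by
  refine ⟨fun s hs k ε hε => ?_, fun s hs ε hε => countE hs hε,
    fun s hs S hS hne ε hε => few_free hs hS hne hε, fun s hs => ⟨fun h => ?_, fun h => ?_⟩⟩
  · obtain ⟨K1, hK1, H1⟩ := Pool.Agent.Run7.h15.CB.main hs k hε
    obtain ⟨K2, hK2, H2⟩ := Pool.Agent.Run7.h15.CB.coprime hs k hε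
    refine ⟨K1 + K2, fun S hS => ?_⟩
    obtain ⟨δ, hδ, hδ'⟩ := HD_iff hs hS
    refine ⟨δ, hδ', fun N hN w hw Q hQ => ⟨fun Y hY => ?_, fun M hM hc hb => ?_⟩⟩
    · simp_rw [cs_eq]
      exact H1 S (inv_of hS) δ hδ N (by omega) w (wt_of hw) Q
        (le_trans (Nat.mul_le_mul_right Q (by omega)) hQ) Y hY
    · simp_rw [cs_eq] at hb
      have h1 := H2 S (inv_of hS) δ hδ N (by omega) w (wt_of hw) Q
        (le_trans (Nat.mul_le_mul_right Q (by omega)) hQ) M hM hc hb
      refine h1.trans (mul_le_mul_of_nonneg_right ?_ (by positivity))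
      push_cast
      linarith [Nat.cast_nonneg (α := ℝ) K1]
  · refine ⟨1 / 4, by norm_num, fun K => ⟨1, K, le_rfl, by omega, ?_⟩⟩
    have h1 : ((1, 0) : ℕ × ℕ) ∈ Free s {x | ¬ Reaches x} 1 K := by
      refine ⟨le_rfl, le_rfl, by norm_num, fun n hn _ _ h2 => h2 (h _ ?_)⟩
      rcases hs with rfl | rfl
      · omega
      · omega
    have h2 : 0 < (Free s {x | ¬ Reaches x} 1 K).ncard :=
      (Set.ncard_pos (free_fin _ _ _ _)).2 ⟨_, h1⟩
    have h3 : (1 : ℝ) ≤ ((Free s {x | ¬ Reaches x} 1 K).ncard : ℝ) := by exact_mod_cast h2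
    push_cast
    linarith
  · obtain ⟨ε, hε, h⟩ := h
    intro x hx
    by_contra hcon
    have hSc : Invariant {x : ℤ | ¬ Reaches x} := fun x => not_congr (reaches_inv x)
    obtain ⟨K, hK⟩ := few_free hs hSc ⟨x, hcon, hx⟩ (show 0 < ε / 2 by positivity)
    obtain ⟨Q, N, hQ, hN, h1⟩ := h K
    have hKN : K ≤ N := le_trans (Nat.le_mul_of_pos_right K hQ) hN
    have h2 := hK N hKN Q hN
    have hQr : (0 : ℝ) < Q := by exact_mod_cast hQ
    have h3 : 0 < ε * (Q : ℝ) ^ 2 := by positivity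
    linarith

end Pool.Agent.Results.MP_d02c56_nt.LevelOne
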