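import Pool.Agent.Run7.h684.E2.Fin

set_option autoImplicit false

/-!
Sets invariant under the Collatz map among the products of exactly `k` primes, `k ≥ 2`.

A bounded function of an integer that depends only on the places where its trajectory is from some time
on has the same mean over the products of exactly `k` primes up to `N` as over all integers up to `N`,
uniformly, for every `k ≥ 2`. So every invariant set has its natural density among the products of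
exactly two primes, even among the products `p q` with `p` in a very sparse set of small primes, and the
Collatz problem is equivalent to its restriction to almost all of these integers.
-/

namespace Pool.Agent.Results.MP_d02c56_nt.ProductsOfPrimes

open Filter Topology

/-- The Collatz map on the integers. -/
def C (x : ℤ) : ℤ := if x % 2 = 0 then x / 2 else 3 * x + 1

/-- The shortcut map. -/
def T (x : ℤ) : ℤ := if x % 2 = 0 then x / 2 else (3 * x + 1) / 2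

/-- `F` has the same value at integers whose trajectories under `T` are at some time at the same
point. -/
def Merging (F : ℤ → ℝ) : Prop := ∀ (t : ℕ) (x y : ℤ), T^[t] x = T^[t] y → F x = F y

/-- `S` is invariant under the Collatz map and its inverse. -/
def Invariant (S : Set ℤ) : Prop := ∀ x : ℤ, x ∈ S ↔ C x ∈ S

/-- Among the integers of sign `s` the set `S` has natural density `δ`. -/
def HasDensity (s : ℤ) (S : Set ℤ) (δ : ℝ) : Prop :=
  Tendsto (fun N : ℕ => ({n : ℤ | 0 < s * n ∧ s * n ≤ N ∧ n ∈ S}.ncard : ℝ) / N) atTop (𝓝 δ)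

/-- The integers `1 ≤ n ≤ N` with exactly `k` prime factors, counted with multiplicity. -/
noncomputable def Om (k N : ℕ) : Finset ℕ :=
  (Finset.Icc 1 N).filter (fun n => ArithmeticFunction.cardFactors n = k)

/-- The number of the `n ≤ N` with exactly `k` prime factors and `s n ∈ S`. -/
noncomputable def Count (s : ℤ) (k N : ℕ) (S : Set ℤ) : ℕ := {n : ℕ | n ∈ Om k N ∧ s * (n : ℤ) ∈ S}.ncard

/-- The number of the pairs of an element `p` of `P` and a prime `q` with `p q ≤ N` and `c p q ∈ S`. -/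
noncomputable def Pairs (c : ℤ) (P : Finset ℕ) (N : ℕ) (S : Set ℤ) : ℕ :=
  {x : ℕ × ℕ | x.1 ∈ P ∧ x.2.Prime ∧ x.1 * x.2 ≤ N ∧ c * ((x.1 : ℤ) * (x.2 : ℤ)) ∈ S}.ncard

/-- The union of the five known cycles. -/
def Known : Finset ℤ := {1, 4, 2, -1, -2, -5, -14, -7, -20, -10, -17, -50, -25, -74, -37, -110,
  -55, -164, -82, -41, -122, -61, -182, -91, -272, -136, -68, -34, 0}

/-- The trajectory of `x` reaches one of the five known cycles. -/
def Reaches (x : ℤ) : Prop := ∃ k : ℕ, C^[k] x ∈ Known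

theorem known_closed : ∀ x ∈ Known, C x ∈ Known := by decide

theorem reaches_inv : Invariant {x | Reaches x} := by
  intro x
  constructor
  · rintro ⟨k, hk⟩
    cases k with
    | zero => exact ⟨0, known_closed x hk⟩
    | succ k => exact ⟨k, by rw [Function.iterate_succ_apply] at hk; exact hk⟩
  · rintro ⟨k, hk⟩
    exact ⟨k + 1, by rw [Function.iterate_succ_apply]; exact hk⟩

open Pool.Agent.W41 Pool.Agent.H499R2.ND Pool.Agent.Run7.h684.E2

theorem inv_of {S : Set ℤ} (hS : Invariant S) : Inv 1 S := by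
  intro x
  have e : Td 1 x = C x ∨ Td 1 x = C (C x) := by
    unfold Td C
    by_cases h : x % 2 = 0
    · left; simp [h]
    · right
      have h2 : (3 * x + 1) % 2 = 0 := by omega
      simp [h, h2]
  rcases e with h | h
  · rw [h]; exact hS x
  · rw [h]; exact (hS x).trans (hS (C x))

theorem T_eq : T = Pool.Agent.H499R2.CO.Tz 1 := rfl

theorem dens {s : ℤ} (hs : s = 1 ∨ s = -1) {S : Set ℤ} (hS : Invariant S) :
    ∃ δ : ℝ, HD s S δ ∧ HasDensity s S δ := by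
  obtain ⟨δ, -, -, h⟩ := dens_side (d := 1) odd_one (by norm_num) hs (inv_of hS)
  exact ⟨δ, h, HD_ncard hs h⟩

theorem pos_iff {s : ℤ} (hs : s = 1 ∨ s = -1) {S : Set ℤ} (hS : Invariant S) {δ : ℝ} (h : HD s S δ) :
    0 < δ ↔ ∃ x ∈ S, 0 < s * x := by
  constructor
  · intro h1
    by_contra h2
    push Not at h2
    have := one_eq_zero hs (fun a ha => not_lt.2 (h2 a ha)) h
    linarith
  · rintro ⟨x, hx, hx0⟩
    exact one_pos hs (inv_of hS) hx hx0 h

theorem Om_eq (k N : ℕ) : Om k N = PK k N := by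
  unfold Om PK
  rfl

theorem count_eq (s : ℤ) (k N : ℕ) (S : Set ℤ) : (Count s k N S : ℝ) = ∑ n ∈ PK k N, iS S (s * (n : ℤ)) := by
  classical
  have e : {n : ℕ | n ∈ Om k N ∧ s * (n : ℤ) ∈ S} = (((PK k N).filter (fun n : ℕ => s * (n : ℤ) ∈ S) : Finset ℕ) : Set ℕ) := by
    rw [Om_eq]
    ext n
    rw [Finset.mem_coe, Finset.mem_filter]
    rfl
  unfold Count
  rw [e, Set.ncard_coe_finset, Finset.card_filter]
  push_cast
  rfl

theorem pairs_eq {P : Finset ℕ} (hP : ∀ p ∈ P, 0 < p) (N : ℕ) (c : ℤ) (S : Set ℤ) :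
    (Pairs c P N S : ℝ) = ∑ n ∈ Finset.Ioc 0 N, pc P n * iS S (c * (n : ℤ)) := by
  classical
  rw [pc_pairs hP]
  unfold Pairs
  rw [← Set.ncard_coe_finset]
  congr 2
  ext x
  rw [Finset.mem_coe, Finset.mem_filter, Finset.mem_product, Finset.mem_Ioc]
  push_cast
  constructor
  · rintro ⟨h1, h2, h3, h4⟩
    exact ⟨⟨h1, h2.pos, (Nat.le_mul_of_pos_left _ (hP _ h1)).trans h3⟩, h2, h3, h4⟩
  · rintro ⟨⟨h1, -, -⟩, h2, h3, h4⟩
    exact ⟨h1, h2, h3, h4⟩

theorem pairs_univ {P : Finset ℕ} (hP : ∀ p ∈ P, 0 < p) (N : ℕ) (c : ℤ) :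
    (Pairs c P N Set.univ : ℝ) = ∑ n ∈ Finset.Ioc 0 N, pc P n := by
  rw [pairs_eq hP]
  apply Finset.sum_congr rfl
  intro n _
  unfold iS
  rw [if_pos (Set.mem_univ _), mul_one]

/-- the relative density among the pairs, in terms of logarithms -/
theorem pairs_dens {s : ℤ} (hs : s = 1 ∨ s = -1) (e : ℕ) {ε : ℝ} (hε : 0 < ε) : ∃ θ : ℝ, 0 < θ ∧ ∀ B : ℕ, ∃ A : ℕ,
    ∃ N₀ : ℕ, 10 ≤ N₀ ∧ ∀ S : Set ℤ, Invariant S → ∀ δ : ℝ, HD s S δ → ∀ N : ℕ, N₀ ≤ N →
    ∀ P : Finset ℕ, (∀ p ∈ P, p.Prime ∧ A * Real.log (Real.log N) ≤ Real.log p ∧ Real.log p ≤ θ * Real.log N) →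
    1 / Real.log N ^ B ≤ ∑ p ∈ P, 1 / (p : ℝ) → ∀ b : ℕ, 1 ≤ b → Real.log b ≤ θ * Real.log N → ¬ 2 ^ e ∣ b →
    |(Pairs (s * b) P N S : ℝ) - δ * Pairs (s * b) P N Set.univ| ≤ ε * Pairs (s * b) P N Set.univ ∧
    0 < (Pairs (s * b) P N Set.univ : ℝ) := by
  cases e with
  | zero =>
    refine ⟨1, one_pos, fun B => ⟨0, 10, le_rfl, ?_⟩⟩
    intro S _ δ _ N _ P _ _ b _ _ hb
    simp at hb
  | succ e =>
    obtain ⟨θ, hθ, h1⟩ := dens_pq relS multS hs e hε
    refine ⟨θ, hθ, fun B => ?_⟩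
    obtain ⟨C₁, hC₁, N₁, hN₁, h1⟩ := h1 B
    obtain ⟨A, hA⟩ := exists_nat_ge C₁
    refine ⟨A, N₁, hN₁, ?_⟩
    intro S hS δ hδ N hN P hP hsg b hb hbθ hb2
    have hl1 : 1 ≤ Real.log N := by
      rw [Real.le_log_iff_exp_le (by exact_mod_cast (by omega : 0 < N))]
      have h2 := Real.exp_one_lt_d9
      have h3 : (10 : ℝ) ≤ N := by exact_mod_cast (by omega : 10 ≤ N)
      linarith
    have hll : 0 ≤ Real.log (Real.log N) := Real.log_nonneg hl1
    have hP0 : ∀ p ∈ P, 0 < p := fun p hp => (hP p hp).1.pos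
    rw [pairs_eq hP0, pairs_univ hP0]
    exact_mod_cast h1 S (inv_of hS) δ hδ N hN P (fun p hp => by
      obtain ⟨g1, g2, g3⟩ := hP p hp
      exact ⟨g1, le_trans (mul_le_mul_of_nonneg_right hA hll) g2, g3⟩) hsg b hb hbθ hb2

theorem Om_pos {k N : ℕ} (h : 2 ^ k ≤ N) : 0 < (Om k N).card := by
  rw [Finset.card_pos]
  refine ⟨2 ^ k, ?_⟩
  unfold Om
  rw [Finset.mem_filter, Finset.mem_Icc]
  exact ⟨⟨Nat.one_le_two_pow, h⟩, ArithmeticFunction.cardFactors_apply_prime_pow Nat.prime_two⟩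

theorem suff_k {s : ℤ} (hs : s = 1 ∨ s = -1) {k : ℕ} (hk : 2 ≤ k) {ψ : ℕ → ℝ} (hψ : Tendsto ψ atTop (𝓝 0))
    {S : Set ℤ} (hS : Invariant S) (hf : ∃ᶠ N : ℕ in atTop, (Count s k N Sᶜ : ℝ) ≤ ψ N * (Om k N).card) :
    ∀ x : ℤ, 0 < s * x → x ∈ S := by
  intro x hsx
  by_contra hx
  have hSc : Invariant Sᶜ := fun x => not_congr (hS x)
  obtain ⟨δ, hδ, -⟩ := dens hs hSc
  have hpos : 0 < δ := (pos_iff hs hSc hδ).2 ⟨x, hx, hsx⟩
  obtain ⟨N₀, hN₀, h1⟩ := dens_kp relS multS hs hk (show 0 < δ / 2 by positivity)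
  have hev : ∀ᶠ N : ℕ in atTop, ψ N < δ / 2 ∧ N₀ + 2 ^ k ≤ N :=
    (hψ.eventually (gt_mem_nhds (show 0 < δ / 2 by positivity))).and (eventually_ge_atTop _)
  obtain ⟨N, hN1, hN2, hN3⟩ := (hf.and_eventually hev).exists
  have h2 := h1 Sᶜ (inv_of hSc) δ hδ N ((Nat.le_add_right _ _).trans hN3)
  rw [← count_eq, ← Om_eq] at h2
  have h3 : 0 < ((Om k N).card : ℝ) := by exact_mod_cast Om_pos ((Nat.le_add_left _ _).trans hN3)
  have h4 := (abs_le.1 h2).1
  have h5 : ψ N * ((Om k N).card : ℝ) < δ / 2 * (Om k N).card := mul_lt_mul_of_pos_right hN2 h3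
  linarith

theorem suff_pairs {s : ℤ} (hs : s = 1 ∨ s = -1) (e B : ℕ) {ω : ℕ → ℝ} (hω : Tendsto ω atTop atTop)
    {S : Set ℤ} (hS : Invariant S)
    (hf : ∃ᶠ N : ℕ in atTop, ∃ (P : Finset ℕ) (b : ℕ), (∀ p ∈ P, p.Prime ∧ Real.log N ^ (ω N) ≤ p ∧
      (p : ℝ) ^ (ω N) ≤ N) ∧ 1 / Real.log N ^ B ≤ ∑ p ∈ P, 1 / (p : ℝ) ∧ ¬ 2 ^ e ∣ b ∧ (b : ℝ) ^ (ω N) ≤ N ∧
      ω N * Pairs (s * b) P N Sᶜ ≤ Pairs (s * b) P N Set.univ) :
    ∀ x : ℤ, 0 < s * x → x ∈ S := by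
  intro x hsx
  by_contra hx
  have hSc : Invariant Sᶜ := fun x => not_congr (hS x)
  obtain ⟨δ, hδ, -⟩ := dens hs hSc
  have hpos : 0 < δ := (pos_iff hs hSc hδ).2 ⟨x, hx, hsx⟩
  obtain ⟨θ, hθ, h1⟩ := pairs_dens hs e (show 0 < δ / 2 by positivity)
  obtain ⟨A, N₀, hN₀, h1⟩ := h1 B
  have hev : ∀ᶠ N : ℕ in atTop, (A : ℝ) + 1 / θ + 2 / δ + 1 ≤ ω N ∧ N₀ ≤ N :=
    (hω.eventually (eventually_ge_atTop _)).and (eventually_ge_atTop _)
  obtain ⟨N, ⟨P, b, hP, hsg, hb2, hbω, hbad⟩, hω1, hN⟩ := (hf.and_eventually hev).exists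
  have hN0 : (0 : ℝ) < N := by exact_mod_cast (by omega : 0 < N)
  have hl1 : 1 ≤ Real.log N := by
    rw [Real.le_log_iff_exp_le hN0]
    have h2 := Real.exp_one_lt_d9
    have h3 : (10 : ℝ) ≤ N := by exact_mod_cast (by omega : 10 ≤ N)
    linarith
  have hll : 0 ≤ Real.log (Real.log N) := Real.log_nonneg hl1
  have hA0 : (0 : ℝ) ≤ A := Nat.cast_nonneg _
  have hθ0 : 0 < 1 / θ := by positivity
  have hδ0 : 0 < 2 / δ := by positivity
  have hω0 : 0 < ω N := by linarith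
  have hb0 : b ≠ 0 := by
    rintro rfl
    exact hb2 (dvd_zero _)
  have key : ∀ z : ℕ, 0 < z → (z : ℝ) ^ (ω N) ≤ N → Real.log z ≤ θ * Real.log N := by
    intro z hz h
    have hz0 : (0 : ℝ) < z := by exact_mod_cast hz
    have h2 := Real.log_le_log (by positivity) h
    rw [Real.log_rpow hz0] at h2
    have h3 : 1 / θ ≤ ω N := by linarith
    rw [div_le_iff₀ hθ] at h3
    have h4 : 0 ≤ Real.log z := Real.log_natCast_nonneg _
    have h5 : Real.log z ≤ ω N * θ * Real.log z := le_mul_of_one_le_left h4 h3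
    calc Real.log z ≤ ω N * θ * Real.log z := h5
      _ = θ * (ω N * Real.log z) := by ring
      _ ≤ θ * Real.log N := mul_le_mul_of_nonneg_left h2 hθ.le
  obtain ⟨h2, h3⟩ := h1 Sᶜ hSc δ hδ N hN P (fun p hp => by
    obtain ⟨g1, g2, g3⟩ := hP p hp
    refine ⟨g1, ?_, key p g1.pos g3⟩
    have h4 := Real.log_le_log (by positivity) g2
    rw [Real.log_rpow (by linarith)] at h4
    refine le_trans ?_ h4
    exact mul_le_mul_of_nonneg_right (by linarith) hll) hsg b (Nat.pos_of_ne_zero hb0)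
    (key b (Nat.pos_of_ne_zero hb0) hbω) hb2
  have h4 := (abs_le.1 h2).1
  set U : ℝ := (Pairs (s * b) P N Set.univ : ℝ) with hU
  set D : ℝ := (Pairs (s * b) P N Sᶜ : ℝ) with hD
  have h5 : δ / 2 * U ≤ D := by linarith
  have h6 : 2 / δ * (δ / 2 * U) ≤ 2 / δ * D := mul_le_mul_of_nonneg_left h5 hδ0.le
  have h7 : 2 / δ * (δ / 2 * U) = U := by field_simp
  have hD0 : 0 < D := lt_of_lt_of_le (by positivity) h5
  have h8 : 2 / δ * D < ω N * D := mul_lt_mul_of_pos_right (by linarith) hD0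
  linarith

/-- (1) For every `k ≥ 2` and `ε > 0` there is `N₀` such that for every function `F` with `|F| ≤ 1` and
`F x = F y` whenever the trajectories of `x` and `y` under `T` are at some time at the same point, both
signs `s` and all `N ≥ N₀` the mean of `F (s n)` over the integers `n ≤ N` with exactly `k` prime factors
is the mean over all integers `n ≤ N`, up to `ε`.
(2) For every `k ≥ 2` and `ε > 0` there is `N₀` such that every invariant set `S` has among the integers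
of sign `s` a natural density `δ`, positive if and only if `S` contains an integer of sign `s`, and for all
`N ≥ N₀` the number of the `n ≤ N` with exactly `k` prime factors and `s n ∈ S` is `δ` times the number of
the `n ≤ N` with exactly `k` prime factors, up to `ε` times this number.
(3) For all `e` and `ε > 0` there is `θ > 0` and for every `B` there are `A` and `N₀` such that for every
invariant `S`, with the density `δ`, all `N ≥ N₀`, all sets `P` of primes `p` with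
`(log N) ^ A ≤ p ≤ N ^ θ` and sum of reciprocals at least `1 / (log N) ^ B` and all `b ≤ N ^ θ` that
`2 ^ e` does not divide, the number of the pairs of `p ∈ P` and a prime `q` with `p q ≤ N` and
`s b p q ∈ S` is `δ` times the number of all pairs with `p q ≤ N`, up to `ε` times this number.
(4) Let `k ≥ 2` and `ψ N → 0`. If for infinitely many `N` all but `ψ N` times the number of the `n ≤ N`
with exactly `k` prime factors satisfy `s n ∈ S`, then the invariant set `S` contains all integers of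
sign `s`.
(5) Let `ω N` tend to infinity and let `B`, `e` be given. If for infinitely many `N` there are a set `P` of
primes with `(log N) ^ (ω N) ≤ p`, `p ^ (ω N) ≤ N` and sum of reciprocals at least `1 / (log N) ^ B` and `b`
with `b ^ (ω N) ≤ N`, not divisible by `2 ^ e`, such that `s b p q ∈ S` for all but a part `1 / ω N` of the
pairs of `p ∈ P` and primes `q` with `p q ≤ N`, then `S` contains all integers of sign `s`.
(6), (7) So the trajectories of all integers reach the five known cycles if this is so, for both signs,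
for the integers in (4), or for the integers in (5). -/
theorem result :
    (∀ k : ℕ, 2 ≤ k → ∀ ε : ℝ, 0 < ε → ∃ N₀ : ℕ, ∀ F : ℤ → ℝ, Merging F → (∀ x, |F x| ≤ 1) →
      ∀ s : ℤ, (s = 1 ∨ s = -1) → ∀ N : ℕ, N₀ ≤ N →
        |∑ n ∈ Om k N, F (s * n) - (∑ n ∈ Finset.Icc 1 N, F (s * n)) / N * (Om k N).card| ≤
          ε * (Om k N).card) ∧
    (∀ s : ℤ, (s = 1 ∨ s = -1) →
      (∀ k : ℕ, 2 ≤ k → ∀ ε : ℝ, 0 < ε → ∃ N₀ : ℕ, ∀ S : Set ℤ, Invariant S → ∃ δ : ℝ, HasDensity s S δ ∧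
        (0 < δ ↔ ∃ x ∈ S, 0 < s * x) ∧ ∀ N : ℕ, N₀ ≤ N →
        |(Count s k N S : ℝ) - δ * (Om k N).card| ≤ ε * (Om k N).card) ∧
      (∀ (e : ℕ) (ε : ℝ), 0 < ε → ∃ θ : ℝ, 0 < θ ∧ ∀ B : ℕ, ∃ A N₀ : ℕ, ∀ S : Set ℤ, Invariant S →
        ∃ δ : ℝ, HasDensity s S δ ∧ (0 < δ ↔ ∃ x ∈ S, 0 < s * x) ∧ ∀ N : ℕ, N₀ ≤ N → ∀ P : Finset ℕ,
        (∀ p ∈ P, p.Prime ∧ Real.log N ^ A ≤ p ∧ (p : ℝ) ≤ (N : ℝ) ^ θ) →
        1 / Real.log N ^ B ≤ ∑ p ∈ P, 1 / (p : ℝ) → ∀ b : ℕ, ¬ 2 ^ e ∣ b → (b : ℝ) ≤ (N : ℝ) ^ θ →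
        0 < Pairs (s * b) P N Set.univ ∧
        |(Pairs (s * b) P N S : ℝ) - δ * Pairs (s * b) P N Set.univ| ≤ ε * Pairs (s * b) P N Set.univ) ∧
      (∀ k : ℕ, 2 ≤ k → ∀ ψ : ℕ → ℝ, Tendsto ψ atTop (𝓝 0) → ∀ S : Set ℤ, Invariant S →
        (∃ᶠ N : ℕ in atTop, (Count s k N Sᶜ : ℝ) ≤ ψ N * (Om k N).card) → ∀ x : ℤ, 0 < s * x → x ∈ S) ∧
      (∀ (e B : ℕ) (ω : ℕ → ℝ), Tendsto ω atTop atTop → ∀ S : Set ℤ, Invariant S →
        (∃ᶠ N : ℕ in atTop, ∃ (P : Finset ℕ) (b : ℕ), (∀ p ∈ P, p.Prime ∧ Real.log N ^ (ω N) ≤ p ∧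
          (p : ℝ) ^ (ω N) ≤ N) ∧ 1 / Real.log N ^ B ≤ ∑ p ∈ P, 1 / (p : ℝ) ∧ ¬ 2 ^ e ∣ b ∧
          (b : ℝ) ^ (ω N) ≤ N ∧ ω N * Pairs (s * b) P N Sᶜ ≤ Pairs (s * b) P N Set.univ) →
        ∀ x : ℤ, 0 < s * x → x ∈ S)) ∧
    (∀ k : ℕ, 2 ≤ k → ∀ ψ : ℕ → ℝ, Tendsto ψ atTop (𝓝 0) →
      (∀ s : ℤ, (s = 1 ∨ s = -1) →
        ∃ᶠ N : ℕ in atTop, (Count s k N {x | ¬ Reaches x} : ℝ) ≤ ψ N * (Om k N).card) →
      ∀ x : ℤ, Reaches x) ∧
    (∀ (e B : ℕ) (ω : ℕ → ℝ), Tendsto ω atTop atTop →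
      (∀ s : ℤ, (s = 1 ∨ s = -1) →
        ∃ᶠ N : ℕ in atTop, ∃ (P : Finset ℕ) (b : ℕ), (∀ p ∈ P, p.Prime ∧ Real.log N ^ (ω N) ≤ p ∧
          (p : ℝ) ^ (ω N) ≤ N) ∧ 1 / Real.log N ^ B ≤ ∑ p ∈ P, 1 / (p : ℝ) ∧ ¬ 2 ^ e ∣ b ∧
          (b : ℝ) ^ (ω N) ≤ N ∧
          ω N * Pairs (s * b) P N {x | ¬ Reaches x} ≤ Pairs (s * b) P N Set.univ) →
      ∀ x : ℤ, Reaches x) := by
  refine ⟨?_, fun s hs => ⟨?_, ?_, ?_, ?_⟩, ?_, ?_⟩
  · intro k hk ε hε
    obtain ⟨j, rfl⟩ : ∃ j, k = j + 2 := ⟨k - 2, by omega⟩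
    obtain ⟨N₀, hN₀, h⟩ := kp relS multS j hε
    refine ⟨N₀, fun F hF hF1 s hs N hN => ?_⟩
    have h1 := h N hN F hF hF1 s hs
    have e1 : Finset.Icc 1 N = Finset.Ioc 0 N := rfl
    rw [← Om_eq] at h1
    rw [e1]
    have e2 : (∑ n ∈ Finset.Ioc 0 N, F (s * (n : ℤ))) / N = 1 / (N : ℝ) * ∑ n ∈ Finset.Ioc 0 N, F (s * (n : ℤ)) := by
      rw [div_eq_mul_one_div, mul_comm]
    rw [e2]
    exact h1
  · intro k hk ε hε
    obtain ⟨N₀, hN₀, h⟩ := dens_kp relS multS hs hk hε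
    refine ⟨N₀, fun S hS => ?_⟩
    obtain ⟨δ, hδ, hδ'⟩ := dens hs hS
    refine ⟨δ, hδ', pos_iff hs hS hδ, fun N hN => ?_⟩
    rw [count_eq, Om_eq]
    exact h S (inv_of hS) δ hδ N hN
  · intro e ε hε
    obtain ⟨θ, hθ, h⟩ := pairs_dens hs e hε
    refine ⟨θ, hθ, fun B => ?_⟩
    obtain ⟨A, N₀, hN₀, h⟩ := h B
    refine ⟨A, N₀, fun S hS => ?_⟩
    obtain ⟨δ, hδ, hδ'⟩ := dens hs hS
    refine ⟨δ, hδ', pos_iff hs hS hδ, fun N hN P hP hsg b hb2 hbθ => ?_⟩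
    have hN0 : (0 : ℝ) < N := by exact_mod_cast (by omega : 0 < N)
    have hl1 : 1 ≤ Real.log N := by
      rw [Real.le_log_iff_exp_le hN0]
      have h2 := Real.exp_one_lt_d9
      have h3 : (10 : ℝ) ≤ N := by exact_mod_cast (by omega : 10 ≤ N)
      linarith
    have hb0 : b ≠ 0 := by
      rintro rfl
      exact hb2 (dvd_zero _)
    have key : ∀ z : ℕ, 0 < z → (z : ℝ) ≤ (N : ℝ) ^ θ → Real.log z ≤ θ * Real.log N := by
      intro z hz h
      have h2 := Real.log_le_log (by exact_mod_cast hz) h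
      rwa [Real.log_rpow hN0] at h2
    obtain ⟨h1, h2⟩ := h S hS δ hδ N hN P (fun p hp => by
      obtain ⟨g1, g2, g3⟩ := hP p hp
      refine ⟨g1, ?_, key p g1.pos g3⟩
      have h4 := Real.log_le_log (by positivity) g2
      rwa [Real.log_pow] at h4) hsg b (Nat.pos_of_ne_zero hb0) (key b (Nat.pos_of_ne_zero hb0) hbθ) hb2
    exact ⟨by exact_mod_cast h2, h1⟩
  · intro k hk ψ hψ S hS hf
    exact suff_k hs hk hψ hS hf
  · intro e B ω hω S hS hf
    exact suff_pairs hs e B hω hS hf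
  · intro k hk ψ hψ hf x
    rcases lt_trichotomy x 0 with hx | hx | hx
    · exact suff_k (Or.inr rfl) hk hψ reaches_inv (hf (-1) (Or.inr rfl)) x (by omega)
    · rw [hx]; exact ⟨0, by decide⟩
    · exact suff_k (Or.inl rfl) hk hψ reaches_inv (hf 1 (Or.inl rfl)) x (by omega)
  · intro e B ω hω hf x
    rcases lt_trichotomy x 0 with hx | hx | hx
    · exact suff_pairs (Or.inr rfl) e B hω reaches_inv (hf (-1) (Or.inr rfl)) x (by omega)
    · rw [hx]; exact ⟨0, by decide⟩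
    · exact suff_pairs (Or.inl rfl) e B hω reaches_inv (hf 1 (Or.inl rfl)) x (by omega)

end Pool.Agent.Results.MP_d02c56_nt.ProductsOfPrimes
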