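import Mathlib
import Pool.Agent.Run7.h603.Sh5

set_option autoImplicit false

/-!
# Product sets of the trajectories of the Collatz map on the integers

Let `X` be the set of the odd numbers among the first `n` terms of a trajectory of the Collatz map on
the integers, where these `n` terms are distinct and the trajectory does not shrink by more than the
factor `2 ^ (n / 2)`; for instance, `X` may be the set of the odd elements of a cycle with `n`
elements, or `2 ^ (n / 2)` may be larger than the absolute value of the first term. A few elements of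
`X` may be left out. Then the set of the products of `N` elements of `X` has at least
`(n / 500) ^ (log N / (log log N + 7/5))` elements, for every `N ≥ 2`: a power of `n` whose exponent
tends to infinity with `N`. For `N = 2` the exponent `5 / 4` is obtained. Moreover `X` expands every
finite set of rational numbers by multiplication.

Method. (1) For every finite nonempty set `A` of positive integers at least one of the `N`-fold
product sets of `A` and of the shifted set `1 ± A` has `|A| ^ (log N / (log log N + 7/5))` elements
(third part). This is proved like the theorem of Bourgain and Chang for sums and products in the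
starting files `Pool/Agent/N811/IS`: the numbers `1 ± a`, `a` divisible by `p ^ j`, lie in the
subgroup of the rationals congruent to `1` modulo `p ^ j`, so that the multiplicative group can take
the place of the additive group in the induction over valuation classes. (2) If `y` is an odd term
which is followed by exactly `k` even terms then `(3 y + 1) / 2 ^ k` is again an odd term, and some
`k ≤ 10` occurs for a positive proportion of the terms. So the set `A` of the numbers `3 |y|` and the
shifted set `1 ± A` are both, up to a constant factor, contained in `X`. (3) Two factors: the argument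
of Elekes with the theorem of Szemerédi and Trotter.
-/

namespace Pool.Agent.Results.MP_d02c56_nt.ProductsOfTrajectories

/-- The Collatz map on the integers. -/
def C (x : ℤ) : ℤ := if x % 2 = 0 then x / 2 else 3 * x + 1

/-- The odd numbers among the first `n` terms of the trajectory of `x`. -/
def oddTerms (x : ℤ) (n : ℕ) : Finset ℤ :=
  ((Finset.range n).image fun k => C^[k] x).filter fun y => y % 2 = 1

/-- The set of the products of `N` elements of `X` (which need not be distinct). -/
def prods (N : ℕ) (X : Finset ℤ) : Finset ℤ :=
  (Fintype.piFinset fun _ : Fin N => X).image fun f => ∏ i, f i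

/-- The exponent `log N / (log log N + 7/5)`. -/
noncomputable def expo (N : ℕ) : ℝ := Real.log N / (Real.log (Real.log N) + 7 / 5)

theorem result :
    -- 1. trajectories and cycles
    (∀ (x : ℤ) (n : ℕ), x ≠ 0 → 1 ≤ n → Set.InjOn (fun k => C^[k] x) (Set.Iio n) →
      x ^ 2 ≤ 2 ^ n * (C^[n] x) ^ 2 →
      ∀ X : Finset ℤ, X ⊆ oddTerms x n → 1000 * (oddTerms x n \ X).card ≤ n →
      -- products of `N` elements
      (∀ N : ℕ, 2 ≤ N → ((n : ℝ) / 500) ^ expo N ≤ ((prods N X).card : ℝ)) ∧
      -- products of two elements
      ((n : ℝ) / 2000) ^ (5 / 4 : ℝ) ≤ ((prods 2 X).card : ℝ) ∧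
      -- products with the elements of an arbitrary set
      ∀ Y : Finset ℚ, Y.Nonempty → (0 : ℚ) ∉ Y → ∀ (N : ℕ) (t β : ℝ), 2 ≤ N → 2 ≤ t → 0 ≤ β →
        1 / (2 ^ (1 / t) - 1) ≤ ((N : ℝ) - (N - 1) * (2 ^ (1 / t) - 1)) ^ β →
        ((n : ℝ) / 500) ^ (1 + β) * (Y.card : ℝ) ^ (1 - 1 / t) ≤
          ((Finset.image₂ (fun (z : ℤ) (y : ℚ) => (z : ℚ) * y) X Y).card : ℝ) *
            ((prods N X).card : ℝ) ^ β) ∧
    -- 2. arbitrary sets of integers: `B` is a part of `X` which is mapped into `X` by
    -- `y ↦ (3 y + 1) / 2 ^ k`, and `σ` is the common sign of the elements of `B`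
    (∀ (σ : ℤ) (k : ℕ) (X B : Finset ℤ), σ = 1 ∨ σ = -1 → B.Nonempty → B ⊆ X →
      (∀ y ∈ B, 0 < σ * y) → (∀ y ∈ B, ∃ z ∈ X, 3 * y + 1 = 2 ^ k * z) →
      (∀ N : ℕ, 2 ≤ N → (B.card : ℝ) ^ expo N ≤ ((prods N X).card : ℝ)) ∧
        B.card ^ 5 ≤ 512 * (prods 2 X).card ^ 4) ∧
    -- 3. products of shifts
    (∀ (σ : ℤ) (N : ℕ) (A : Finset ℤ), σ = 1 ∨ σ = -1 → 2 ≤ N → A.Nonempty → (∀ a ∈ A, 0 < a) →
      (∀ a ∈ A, 1 + σ * a ≠ 0) →
      (A.card : ℝ) ^ expo N ≤
        max ((prods N (A.image fun a => 1 + σ * a)).card : ℝ) ((prods N A).card : ℝ)) := by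
  refine ⟨?_, ?_, ?_⟩
  · intro x n hx hn hinj h X hX hmiss
    exact Run7.h603.trajectories hx hn hinj h X hX hmiss
  · intro σ k X B hσ hB hBX hs hf
    refine ⟨fun N hN => Run7.h603.growth σ hσ k X B hB hBX hs hf hN,
      Run7.h603.two_factors k X B hBX ?_ hf⟩
    rintro y hy rfl
    have := hs 0 hy
    simp at this
  · intro σ N A hσ hN hA hpos hne
    exact Run7.h603.shift_low σ hσ hN A hA hpos hne

end Pool.Agent.Results.MP_d02c56_nt.ProductsOfTrajectories
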