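import Pool.Agent.Run7.h145.QP.E3

set_option autoImplicit false

/-!
Invariant sets of the Collatz map on the integers along quadratic polynomials in several variables.

The values of a quadratic polynomial whose quadratic part has rank at least two lie in a set
invariant under the Collatz map with the frequency given by the natural densities of the set,
uniformly in the set, the box, the range of values and the lower order coefficients. So every large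
integer is the sum of a value of a given binary quadratic form and an element of a given invariant
set, and an invariant set that contains the values at almost all points contains everything.
-/

namespace Pool.Agent.Results.MP_d02c56_nt.QuadraticPolynomials

open Filter Topology

/-- The Collatz map on the integers. -/
def C (x : ℤ) : ℤ := if x % 2 = 0 then x / 2 else 3 * x + 1

/-- `S` is invariant under the Collatz map and its inverse. -/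
def Invariant (S : Set ℤ) : Prop := ∀ x : ℤ, x ∈ S ↔ C x ∈ S

/-- Among the integers of sign `s` the set `S` has natural density `δ`. -/
def HasDensity (s : ℤ) (S : Set ℤ) (δ : ℝ) : Prop :=
  Tendsto (fun N : ℕ => ({n : ℤ | 0 < s * n ∧ s * n ≤ N ∧ n ∈ S}.ncard : ℝ) / N) atTop (𝓝 δ)

/-- The union of the five known cycles. -/
def Known : Finset ℤ := {1, 4, 2, -1, -2, -5, -14, -7, -20, -10, -17, -50, -25, -74, -37, -110,
  -55, -164, -82, -41, -122, -61, -182, -91, -272, -136, -68, -34, 0}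

/-- The trajectory of `x` reaches one of the five known cycles. -/
def Reaches (x : ℤ) : Prop := ∃ k : ℕ, C^[k] x ∈ Known

/-- The value at `x` of the quadratic polynomial with quadratic part `∑ A i j x i x j`, linear part
`∑ l i x i` and constant term `c`. -/
def Val {k : ℕ} (A : Fin k → Fin k → ℤ) (l : Fin k → ℤ) (c : ℤ) (x : Fin k → ℤ) : ℤ :=
  ∑ i, ∑ j, A i j * x i * x j + ∑ i, l i * x i + c

/-- The quadratic form `∑ A i j x i x j` has rank at least two: the symmetric matrix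
`A i j + A j i` has a minor of order two that is not zero. -/
def RankTwo {k : ℕ} (A : Fin k → Fin k → ℤ) : Prop :=
  ∃ p q r s : Fin k, (A p r + A r p) * (A q s + A s q) ≠ (A p s + A s p) * (A q r + A r q)

/-- The lattice points of a box. -/
def Box {k : ℕ} (a b : Fin k → ℤ) : Set (Fin k → ℤ) := {x | ∀ i, a i < x i ∧ x i ≤ b i}

/-- The lattice points of the cube `[-N, N] ^ k`. -/
def Cube (k N : ℕ) : Set (Fin k → ℤ) := {x | ∀ i, |x i| ≤ N}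

theorem known_closed : ∀ x ∈ Known, C x ∈ Known := by decide

theorem reaches_inv : Invariant {x | Reaches x} := by
  intro x
  constructor
  · rintro ⟨k, hk⟩
    cases k with
    | zero => exact ⟨0, known_closed x hk⟩
    | succ k => exact ⟨k, by rw [Function.iterate_succ_apply] at hk; exact hk⟩
  · rintro ⟨k, hk⟩
    exact ⟨k + 1, by rw [Function.iterate_succ_apply]; exact hk⟩

open Pool.Agent.W41 Pool.Agent.H499R2.ND Pool.Agent.H499R2.CO Pool.Agent.Run7.h145.QP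

theorem inv_of {S : Set ℤ} (hS : Invariant S) : Inv 1 S := by
  intro x
  have e : Td 1 x = C x ∨ Td 1 x = C (C x) := by
    unfold Td C
    by_cases h : x % 2 = 0
    · left; simp [h]
    · right
      have h2 : (3 * x + 1) % 2 = 0 := by omega
      simp [h, h2]
  rcases e with h | h
  · rw [h]; exact hS x
  · rw [h]; exact (hS x).trans (hS (C x))

theorem HD_iff {s : ℤ} (hs : s = 1 ∨ s = -1) {S : Set ℤ} (hS : Invariant S) :
    ∃ δ : ℝ, (0 ≤ δ ∧ δ ≤ 1) ∧ HD s S δ ∧ HasDensity s S δ := by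
  obtain ⟨δ, h0, h1, h⟩ := dens_side (d := 1) odd_one (by norm_num) hs (inv_of hS)
  exact ⟨δ, ⟨h0, h1⟩, h, HD_ncard hs h⟩

theorem HD_of {s : ℤ} (hs : s = 1 ∨ s = -1) {S : Set ℤ} (hS : Invariant S) {δ : ℝ} (h : HasDensity s S δ) :
    HD s S δ ∧ 0 ≤ δ ∧ δ ≤ 1 := by
  obtain ⟨δ', h0, h1, h2⟩ := HD_iff hs hS
  rw [tendsto_nhds_unique h h2]
  exact ⟨h1, h0⟩

theorem minor {k : ℕ} {A : Fin k → Fin k → ℤ} (h : RankTwo A) : ∃ p q r s : Fin k, p ≠ q ∧ r ≠ s ∧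
    Sy A p r * Sy A q s - Sy A p s * Sy A q r ≠ 0 := by
  obtain ⟨p, q, r, s, h⟩ := h
  refine ⟨p, q, r, s, ?_, ?_, ?_⟩
  · rintro rfl
    apply h
    ring
  · rintro rfl
    exact h rfl
  · unfold Sy
    intro h1
    exact h (sub_eq_zero.1 h1)

theorem val_eq {k : ℕ} (A : Fin k → Fin k → ℤ) (l : Fin k → ℤ) (c : ℤ) (x : Fin k → ℤ) :
    Val A l c x = Pol A l c x := rfl

/-- the main theorem -/
theorem main {k : ℕ} (A : Fin k → Fin k → ℤ) (hA : RankTwo A) {B ε : ℝ} (hB : 0 < B) (hε : 0 < ε) :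
    ∃ R₀ : ℕ, ∀ S : Set ℤ, Invariant S → ∃ δ δ' : ℝ, HasDensity 1 S δ ∧ HasDensity (-1) S δ' ∧
      ∀ R : ℕ, R₀ ≤ R → ∀ (l : Fin k → ℤ) (c : ℤ) (a b : Fin k → ℤ), (∀ i, |(l i : ℝ)| ≤ B * R) →
      |(c : ℝ)| ≤ B * R ^ 2 → (∀ i, |a i| ≤ R ∧ |b i| ≤ R) → ∀ u v : ℤ,
      |({x ∈ Box a b | (u < Val A l c x ∧ Val A l c x ≤ v) ∧ Val A l c x ∈ S}.ncard : ℝ)
        - δ * {x ∈ Box a b | (u < Val A l c x ∧ Val A l c x ≤ v) ∧ 0 < Val A l c x}.ncard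
        - δ' * {x ∈ Box a b | (u < Val A l c x ∧ Val A l c x ≤ v) ∧ Val A l c x < 0}.ncard| ≤ ε * R ^ k := by
  obtain ⟨p, q, r, s, h1, h2, h3⟩ := minor hA
  obtain ⟨R₀, h⟩ := main_S A h1 h2 h3 hB hε
  refine ⟨R₀, fun S hS => ?_⟩
  obtain ⟨δ, b1, d1, d2⟩ := HD_iff (s := 1) (Or.inl rfl) hS
  obtain ⟨δ', b1', d1', d2'⟩ := HD_iff (s := -1) (Or.inr rfl) hS
  refine ⟨δ, δ', d2, d2', fun R hR l c a b hl hc hab u v => ?_⟩
  have h4 := h S (inv_of hS) δ δ' d1 d1' b1 b1' R hR l c a b hl hc (fun i => (hab i).1) (fun i => (hab i).2) u v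
  rw [Fintype.card_fin] at h4
  exact h4

theorem box_finite {k : ℕ} (a b : Fin k → ℤ) : (Box a b).Finite := by
  have : Box a b = ((Fintype.piFinset (fun i => Finset.Ioc (a i) (b i)) : Finset (Fin k → ℤ)) : Set (Fin k → ℤ)) := by
    ext x
    simp [Box]
  rw [this]
  exact Finset.finite_toSet _

theorem val_bound {k : ℕ} (A : Fin k → Fin k → ℤ) (l : Fin k → ℤ) (c : ℤ) (a b : Fin k → ℤ) :
    ∃ V : ℤ, 0 ≤ V ∧ ∀ x ∈ Box a b, |Val A l c x| ≤ V := by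
  obtain ⟨V, hV⟩ := ((box_finite a b).image (fun x => |Val A l c x|)).bddAbove
  refine ⟨max V 0, le_max_right _ _, fun x hx => ?_⟩
  exact (hV (Set.mem_image_of_mem _ hx)).trans (le_max_left _ _)

/-- one side -/
theorem side {k : ℕ} (A : Fin k → Fin k → ℤ) (hA : RankTwo A) {B ε : ℝ} (hB : 0 < B) (hε : 0 < ε)
    {s : ℤ} (hs : s = 1 ∨ s = -1) :
    ∃ R₀ : ℕ, ∀ S : Set ℤ, Invariant S → ∀ δ : ℝ, HasDensity s S δ →
      ∀ R : ℕ, R₀ ≤ R → ∀ (l : Fin k → ℤ) (c : ℤ) (a b : Fin k → ℤ), (∀ i, |(l i : ℝ)| ≤ B * R) →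
      |(c : ℝ)| ≤ B * R ^ 2 → (∀ i, |a i| ≤ R ∧ |b i| ≤ R) →
      |({x ∈ Box a b | 0 < s * Val A l c x ∧ Val A l c x ∈ S}.ncard : ℝ)
        - δ * {x ∈ Box a b | 0 < s * Val A l c x}.ncard| ≤ ε * R ^ k := by
  obtain ⟨R₀, h⟩ := main A hA hB hε
  refine ⟨R₀, fun S hS δ hδ R hR l c a b hl hc hab => ?_⟩
  obtain ⟨δ₁, δ₂, h1, h2, h3⟩ := h S hS
  obtain ⟨V, hV0, hV⟩ := val_bound A l c a b
  have hV' : ∀ x ∈ Box a b, -V ≤ Val A l c x ∧ Val A l c x ≤ V := fun x hx => abs_le.1 (hV x hx)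
  rcases hs with rfl | rfl
  · have h4 := h3 R hR l c a b hl hc hab 0 V
    have e1 : {x ∈ Box a b | (0 < Val A l c x ∧ Val A l c x ≤ V) ∧ Val A l c x ∈ S} =
        {x ∈ Box a b | 0 < 1 * Val A l c x ∧ Val A l c x ∈ S} := by
      ext x
      simp only [Set.mem_ofPred_eq, one_mul]
      constructor
      · rintro ⟨q1, ⟨q2, -⟩, q3⟩; exact ⟨q1, q2, q3⟩
      · rintro ⟨q1, q2, q3⟩; exact ⟨q1, ⟨q2, (hV' x q1).2⟩, q3⟩
    have e2 : {x ∈ Box a b | (0 < Val A l c x ∧ Val A l c x ≤ V) ∧ 0 < Val A l c x} =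
        {x ∈ Box a b | 0 < 1 * Val A l c x} := by
      ext x
      simp only [Set.mem_ofPred_eq, one_mul]
      constructor
      · rintro ⟨q1, -, q3⟩; exact ⟨q1, q3⟩
      · rintro ⟨q1, q3⟩; exact ⟨q1, ⟨q3, (hV' x q1).2⟩, q3⟩
    have e3 : {x ∈ Box a b | (0 < Val A l c x ∧ Val A l c x ≤ V) ∧ Val A l c x < 0} = ∅ := by
      ext x
      simp only [Set.mem_ofPred_eq, Set.mem_empty_iff_false, iff_false]
      rintro ⟨-, ⟨q2, -⟩, q3⟩
      omega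
    rw [e1, e2, e3, Set.ncard_empty, Nat.cast_zero, mul_zero, sub_zero] at h4
    rw [tendsto_nhds_unique hδ h1]
    exact h4
  · have h4 := h3 R hR l c a b hl hc hab (-V - 1) (-1)
    have e1 : {x ∈ Box a b | (-V - 1 < Val A l c x ∧ Val A l c x ≤ -1) ∧ Val A l c x ∈ S} =
        {x ∈ Box a b | 0 < -1 * Val A l c x ∧ Val A l c x ∈ S} := by
      ext x
      simp only [Set.mem_ofPred_eq]
      constructor
      · rintro ⟨q1, ⟨-, q2⟩, q3⟩; exact ⟨q1, by omega, q3⟩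
      · rintro ⟨q1, q2, q3⟩; exact ⟨q1, ⟨by have := (hV' x q1).1; omega, by omega⟩, q3⟩
    have e2 : {x ∈ Box a b | (-V - 1 < Val A l c x ∧ Val A l c x ≤ -1) ∧ Val A l c x < 0} =
        {x ∈ Box a b | 0 < -1 * Val A l c x} := by
      ext x
      simp only [Set.mem_ofPred_eq]
      constructor
      · rintro ⟨q1, -, q3⟩; exact ⟨q1, by omega⟩
      · rintro ⟨q1, q3⟩; exact ⟨q1, ⟨by have := (hV' x q1).1; omega, by omega⟩, by omega⟩
    have e3 : {x ∈ Box a b | (-V - 1 < Val A l c x ∧ Val A l c x ≤ -1) ∧ 0 < Val A l c x} = ∅ := by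
      ext x
      simp only [Set.mem_ofPred_eq, Set.mem_empty_iff_false, iff_false]
      rintro ⟨-, ⟨-, q2⟩, q3⟩
      omega
    rw [e1, e2, e3, Set.ncard_empty, Nat.cast_zero, mul_zero, sub_zero] at h4
    rw [tendsto_nhds_unique hδ h2]
    exact h4

theorem dens_pos {s : ℤ} (hs : s = 1 ∨ s = -1) {S : Set ℤ} (hS : Invariant S) (hne : ∃ x ∈ S, 0 < s * x) :
    ∃ δ : ℝ, 0 < δ ∧ HasDensity s S δ := by
  obtain ⟨δ, -, h1, h2⟩ := HD_iff hs hS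
  obtain ⟨x, hx, hx0⟩ := hne
  exact ⟨δ, one_pos hs (inv_of hS) hx hx0 h1, h2⟩

theorem cube_sub {k N : ℕ} : Cube k N ⊆ Box (fun _ => -(N : ℤ) - 1) (fun _ => (N : ℤ)) := by
  intro x hx i
  have := abs_le.1 (hx i)
  change -(N : ℤ) - 1 < x i ∧ x i ≤ (N : ℤ)
  constructor <;> omega

theorem cube_eq {k N : ℕ} : Cube k N = Box (fun _ => -(N : ℤ) - 1) (fun _ => (N : ℤ)) := by
  apply Set.Subset.antisymm cube_sub
  intro x hx i
  have h : -(N : ℤ) - 1 < x i ∧ x i ≤ (N : ℤ) := hx i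
  rw [abs_le]
  constructor <;> omega

/-- reduction -/
theorem reduction {k : ℕ} (A : Fin k → Fin k → ℤ) (hA : RankTwo A) (l : Fin k → ℤ) (c : ℤ)
    {s : ℤ} (hs : s = 1 ∨ s = -1) {κ : ℝ} (hκ : 0 < κ)
    (hpos : ∀ᶠ N : ℕ in atTop, κ * N ^ k ≤ {x ∈ Cube k N | 0 < s * Val A l c x}.ncard)
    {ψ : ℕ → ℝ} (hψ : Tendsto ψ atTop (𝓝 0)) {S : Set ℤ} (hS : Invariant S)
    (h : ∃ᶠ N : ℕ in atTop, ({x ∈ Cube k N | 0 < s * Val A l c x ∧ Val A l c x ∉ S}.ncard : ℝ) ≤ ψ N * N ^ k) :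
    ∀ x : ℤ, 0 < s * x → x ∈ S := by
  intro x₀ hx₀
  by_contra hcon
  have hSc : Invariant Sᶜ := fun x => not_congr (hS x)
  obtain ⟨δ, hδ0, hδ⟩ := dens_pos hs hSc ⟨x₀, hcon, hx₀⟩
  obtain ⟨L, hL⟩ : ∃ L : ℝ, 0 < L ∧ (∀ i, |(l i : ℝ)| ≤ L) ∧ |(c : ℝ)| ≤ L := by
    refine ⟨∑ i, |(l i : ℝ)| + |(c : ℝ)| + 1, by positivity, fun i => ?_, ?_⟩
    · have := Finset.single_le_sum (f := fun i => |(l i : ℝ)|) (fun i _ => abs_nonneg _) (Finset.mem_univ i)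
      have h2 := abs_nonneg (c : ℝ)
      linarith
    · have : 0 ≤ ∑ i, |(l i : ℝ)| := Finset.sum_nonneg fun i _ => abs_nonneg _
      linarith
  obtain ⟨hL0, hLl, hLc⟩ := hL
  set ε : ℝ := δ * κ / (2 * 2 ^ k) with hε
  have hε0 : 0 < ε := by positivity
  obtain ⟨R₀, hR⟩ := side A hA hL0 hε0 hs
  have h1 : ∀ᶠ N : ℕ in atTop, ψ N < δ * κ / 2 := (tendsto_order.1 hψ).2 _ (by positivity)
  obtain ⟨N, h2, h3, h4, h5⟩ := (h.and_eventually (h1.and (hpos.and (eventually_ge_atTop (R₀ + 1))))).exists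
  have hN1 : 1 ≤ N := by omega
  have hNr : (1 : ℝ) ≤ N := by exact_mod_cast hN1
  have h6 := hR Sᶜ hSc δ hδ (N + 1) (by omega) l c (fun _ => -(N : ℤ) - 1) (fun _ => (N : ℤ)) (fun i => by
      push_cast
      have := hLl i
      nlinarith) (by
      push_cast
      have : (1 : ℝ) ≤ ((N : ℝ) + 1) ^ 2 := by nlinarith
      nlinarith) (fun i => by
      constructor
      · rw [abs_le]; push_cast; constructor <;> omega
      · rw [abs_le]; push_cast; constructor <;> omega)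
  rw [← cube_eq] at h6
  have h7 : ((N + 1 : ℕ) : ℝ) ^ k ≤ 2 ^ k * N ^ k := by
    rw [← mul_pow]
    apply pow_le_pow_left₀ (by positivity)
    push_cast; linarith
  have h8 := (abs_le.1 h6).1
  have h9 : ({x ∈ Cube k N | 0 < s * Val A l c x ∧ Val A l c x ∈ Sᶜ}.ncard : ℝ) ≤ ψ N * N ^ k := h2
  have hNk : (0 : ℝ) < (N : ℝ) ^ k := by positivity
  have h10 : δ * (κ * N ^ k) ≤ δ * {x ∈ Cube k N | 0 < s * Val A l c x}.ncard := by gcongr
  have h11 : ε * ((N + 1 : ℕ) : ℝ) ^ k ≤ δ * κ / 2 * N ^ k := by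
    calc ε * ((N + 1 : ℕ) : ℝ) ^ k ≤ ε * (2 ^ k * N ^ k) := by gcongr
      _ = _ := by rw [hε]; field_simp
  have h12 : ψ N * (N : ℝ) ^ k < δ * κ / 2 * N ^ k := mul_lt_mul_of_pos_right h3 hNk
  linarith

/-- pairs -/
theorem ncard_pair (Φ : ℤ → ℤ → Prop) : {p : ℤ × ℤ | Φ p.1 p.2}.ncard = {x : Fin 2 → ℤ | Φ (x 0) (x 1)}.ncard := by
  have e : {p : ℤ × ℤ | Φ p.1 p.2} = (finTwoArrowEquiv ℤ) '' {x : Fin 2 → ℤ | Φ (x 0) (x 1)} := by
    ext p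
    simp only [Set.mem_ofPred_eq, Set.mem_image]
    constructor
    · intro h
      exact ⟨![p.1, p.2], by simpa using h, by simp [finTwoArrowEquiv]⟩
    · rintro ⟨x, hx, rfl⟩
      simpa [finTwoArrowEquiv] using hx
  rw [e, Set.ncard_image_of_injective _ (finTwoArrowEquiv ℤ).injective]

/-- binary forms -/
def Bin (α β γ : ℤ) : Fin 2 → Fin 2 → ℤ := ![![α, β], ![0, γ]]

theorem bin_val (α β γ c : ℤ) (x : Fin 2 → ℤ) :
    Val (Bin α β γ) 0 c x = α * x 0 ^ 2 + β * x 0 * x 1 + γ * x 1 ^ 2 + c := by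
  unfold Val Bin
  simp [Fin.sum_univ_two]
  ring

theorem bin_rank {α β γ : ℤ} (h : β ^ 2 ≠ 4 * α * γ) : RankTwo (Bin α β γ) := by
  refine ⟨0, 1, 0, 1, ?_⟩
  unfold Bin
  simp
  intro h1
  apply h
  linear_combination -h1

/-- sums of two squares -/
theorem two_squares {ε : ℝ} (hε : 0 < ε) : ∃ N₀ : ℕ, ∀ S : Set ℤ, Invariant S →
    ∃ δ : ℝ, HasDensity 1 S δ ∧ ∀ N : ℕ, N₀ ≤ N →
      |({p : ℤ × ℤ | 0 < p.1 ^ 2 + p.2 ^ 2 ∧ p.1 ^ 2 + p.2 ^ 2 ≤ N ∧ p.1 ^ 2 + p.2 ^ 2 ∈ S}.ncard : ℝ)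
        - δ * {p : ℤ × ℤ | 0 < p.1 ^ 2 + p.2 ^ 2 ∧ p.1 ^ 2 + p.2 ^ 2 ≤ N}.ncard| ≤ ε * N := by
  obtain ⟨R₀, h⟩ := main (Bin 1 0 1) (bin_rank (by norm_num)) (show (0 : ℝ) < 1 by norm_num) (show 0 < ε / 4 by positivity)
  refine ⟨R₀ ^ 2 + 1, fun S hS => ?_⟩
  obtain ⟨δ, δ', h1, -, h2⟩ := h S hS
  refine ⟨δ, h1, fun N hN => ?_⟩
  set R := Nat.sqrt N with hR
  have hR1 : R₀ ≤ R := Nat.le_sqrt'.2 (by omega)
  have hR2 : 1 ≤ R := Nat.le_sqrt'.2 (by omega)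
  have hRN : R ^ 2 ≤ N := Nat.sqrt_le' N
  have hRN' : N < (R + 1) ^ 2 := Nat.lt_succ_sqrt' N
  have h3 := h2 (R + 1) (by omega) 0 0 (fun _ => -((R : ℤ) + 1)) (fun _ => (R : ℤ) + 1) (by
    intro i; simp; positivity) (by simp; positivity) (by
    intro i
    constructor
    · rw [abs_neg, abs_of_nonneg (by positivity)]; push_cast; exact le_rfl
    · rw [abs_of_nonneg (by positivity)]; push_cast; exact le_rfl) 0 N
  have hbox : ∀ x : Fin 2 → ℤ, x 0 ^ 2 + x 1 ^ 2 ≤ N → x ∈ Box (fun _ : Fin 2 => -((R : ℤ) + 1)) (fun _ => (R : ℤ) + 1) := by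
    intro x hx
    have hz : (N : ℤ) < ((R : ℤ) + 1) ^ 2 := by exact_mod_cast hRN'
    have key : ∀ t : ℤ, t ^ 2 ≤ N → -((R : ℤ) + 1) < t ∧ t ≤ (R : ℤ) + 1 := by
      intro t ht
      have h5 : t ^ 2 < ((R : ℤ) + 1) ^ 2 := lt_of_le_of_lt ht hz
      have h6 := abs_lt_of_sq_lt_sq h5 (by positivity)
      rw [abs_lt] at h6
      exact ⟨h6.1, h6.2.le⟩
    intro i
    fin_cases i
    · exact key _ (by have := sq_nonneg (x 1); simp only [Fin.zero_eta]; linarith)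
    · exact key _ (by have := sq_nonneg (x 0); simp only [Fin.mk_one]; linarith)
  have hval : ∀ x : Fin 2 → ℤ, Val (Bin 1 0 1) 0 0 x = x 0 ^ 2 + x 1 ^ 2 := by
    intro x; rw [bin_val]; ring
  rw [ncard_pair (fun x y => 0 < x ^ 2 + y ^ 2 ∧ x ^ 2 + y ^ 2 ≤ N ∧ x ^ 2 + y ^ 2 ∈ S),
    ncard_pair (fun x y => 0 < x ^ 2 + y ^ 2 ∧ x ^ 2 + y ^ 2 ≤ N)]
  have e1 : {x ∈ Box (fun _ : Fin 2 => -((R : ℤ) + 1)) (fun _ => (R : ℤ) + 1) | (0 < Val (Bin 1 0 1) 0 0 x ∧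
      Val (Bin 1 0 1) 0 0 x ≤ N) ∧ Val (Bin 1 0 1) 0 0 x ∈ S} =
      {x : Fin 2 → ℤ | 0 < x 0 ^ 2 + x 1 ^ 2 ∧ x 0 ^ 2 + x 1 ^ 2 ≤ N ∧ x 0 ^ 2 + x 1 ^ 2 ∈ S} := by
    ext x
    simp only [Set.mem_ofPred_eq, hval]
    constructor
    · rintro ⟨-, ⟨q1, q2⟩, q3⟩; exact ⟨q1, q2, q3⟩
    · rintro ⟨q1, q2, q3⟩; exact ⟨hbox x q2, ⟨q1, q2⟩, q3⟩
  have e2 : {x ∈ Box (fun _ : Fin 2 => -((R : ℤ) + 1)) (fun _ => (R : ℤ) + 1) | (0 < Val (Bin 1 0 1) 0 0 x ∧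
      Val (Bin 1 0 1) 0 0 x ≤ N) ∧ 0 < Val (Bin 1 0 1) 0 0 x} =
      {x : Fin 2 → ℤ | 0 < x 0 ^ 2 + x 1 ^ 2 ∧ x 0 ^ 2 + x 1 ^ 2 ≤ N} := by
    ext x
    simp only [Set.mem_ofPred_eq, hval]
    constructor
    · rintro ⟨-, ⟨q1, q2⟩, -⟩; exact ⟨q1, q2⟩
    · rintro ⟨q1, q2⟩; exact ⟨hbox x q2, ⟨q1, q2⟩, q1⟩
  have e3 : {x ∈ Box (fun _ : Fin 2 => -((R : ℤ) + 1)) (fun _ => (R : ℤ) + 1) | (0 < Val (Bin 1 0 1) 0 0 x ∧
      Val (Bin 1 0 1) 0 0 x ≤ N) ∧ Val (Bin 1 0 1) 0 0 x < 0} = ∅ := by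
    ext x
    simp only [Set.mem_ofPred_eq, Set.mem_empty_iff_false, iff_false]
    rintro ⟨-, ⟨q2, -⟩, q3⟩
    omega
  rw [e1, e2, e3, Set.ncard_empty, Nat.cast_zero, mul_zero, sub_zero] at h3
  refine h3.trans ?_
  have h4 : ((R + 1 : ℕ) : ℝ) ^ 2 ≤ 4 * N := by
    have : (R + 1) ^ 2 ≤ 4 * R ^ 2 := by nlinarith
    have : (R + 1) ^ 2 ≤ 4 * N := by omega
    exact_mod_cast this
  calc ε / 4 * ((R + 1 : ℕ) : ℝ) ^ 2 ≤ ε / 4 * (4 * N) := by gcongr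
    _ = ε * N := by ring

/-- representations -/
theorem represent {s : ℤ} (hs : s = 1 ∨ s = -1) {α β γ : ℤ} (hdisc : β ^ 2 ≠ 4 * α * γ) {S : Set ℤ}
    (hS : Invariant S) (hne : ∃ x ∈ S, 0 < s * x) : ∃ κ : ℝ, 0 < κ ∧ ∃ n₀ : ℕ, ∀ n : ℕ, n₀ ≤ n →
      κ * n ≤ {p : ℤ × ℤ | (0 < p.1 ∧ p.1 ^ 2 ≤ n) ∧ (0 < p.2 ∧ p.2 ^ 2 ≤ n) ∧
        ∃ t ∈ S, 0 < s * t ∧ s * n = (α * p.1 ^ 2 + β * p.1 * p.2 + γ * p.2 ^ 2) + t}.ncard := by
  obtain ⟨δ, hδ0, hδ⟩ := dens_pos hs hS hne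
  set D : ℕ := α.natAbs + β.natAbs + γ.natAbs + 1 with hD
  have hD1 : 1 ≤ D := by omega
  have hDr : (1 : ℝ) ≤ D := by exact_mod_cast hD1
  set ε : ℝ := δ / (32 * D ^ 2) with hε
  have hε0 : 0 < ε := by positivity
  obtain ⟨R₀, h⟩ := side (Bin (-α) (-β) (-γ)) (bin_rank (by intro h1; apply hdisc; linear_combination h1))
    (show (0 : ℝ) < 4 by norm_num) hε0 hs
  refine ⟨δ / (128 * D ^ 2), by positivity, (R₀ + 4 * D) ^ 2, fun n hn => ?_⟩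
  set R := Nat.sqrt n with hR
  have hR1 : R₀ + 4 * D ≤ R := Nat.le_sqrt'.2 hn
  have hRn : R ^ 2 ≤ n := Nat.sqrt_le' n
  have hRn' : n < (R + 1) ^ 2 := Nat.lt_succ_sqrt' n
  have hn4 : n ≤ 4 * R ^ 2 := by nlinarith
  set m := R / (2 * D) with hm
  have hmR : m * (2 * D) ≤ R := Nat.div_mul_le_self _ _
  have hmR' : R < (m + 1) * (2 * D) := by
    have := Nat.lt_mul_div_succ R (show 0 < 2 * D by omega)
    rw [← hm] at this
    linarith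
  have hm4 : R ≤ 4 * D * m := by nlinarith
  have hmle : m ≤ R := by nlinarith
  have h1 := h S hS δ hδ R (by omega) 0 (s * n) (fun _ => 0) (fun _ => (m : ℤ)) (by
    intro i; simp) (by
    have : |((s * (n : ℤ) : ℤ) : ℝ)| = n := by
      rcases hs with rfl | rfl <;> simp
    rw [this]
    exact_mod_cast hn4) (by
    intro i
    refine ⟨by simp, ?_⟩
    rw [abs_of_nonneg (by positivity)]
    exact_mod_cast hmle)
  have hval : ∀ x : Fin 2 → ℤ, Val (Bin (-α) (-β) (-γ)) 0 (s * n) x =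
      s * n - (α * x 0 ^ 2 + β * x 0 * x 1 + γ * x 1 ^ 2) := by
    intro x; rw [bin_val]; ring
  have hpos : ∀ x ∈ Box (fun _ : Fin 2 => (0 : ℤ)) (fun _ => (m : ℤ)), 0 < s * Val (Bin (-α) (-β) (-γ)) 0 (s * n) x := by
    intro x hx
    rw [hval]
    have h0 := hx 0
    have h1 := hx 1
    simp only at h0 h1
    have hb : |α * x 0 ^ 2 + β * x 0 * x 1 + γ * x 1 ^ 2| ≤ D * m ^ 2 := by
      have a0 : |x 0| ≤ m := by rw [abs_le]; omega
      have a1 : |x 1| ≤ m := by rw [abs_le]; omega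
      have t1 : |α * x 0 ^ 2| ≤ |α| * m ^ 2 := by
        rw [abs_mul, abs_pow]; gcongr
      have t2 : |β * x 0 * x 1| ≤ |β| * m ^ 2 := by
        rw [abs_mul, abs_mul, sq, mul_assoc]; gcongr
      have t3 : |γ * x 1 ^ 2| ≤ |γ| * m ^ 2 := by
        rw [abs_mul, abs_pow]; gcongr
      have t4 := abs_add_three (α * x 0 ^ 2) (β * x 0 * x 1) (γ * x 1 ^ 2)
      have hDz : (D : ℤ) = |α| + |β| + |γ| + 1 := by rw [hD]; push_cast; ring
      have t5 : (0 : ℤ) ≤ (m : ℤ) ^ 2 := by positivity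
      rw [hDz]
      have t6 : (|α| + |β| + |γ| + 1) * (m : ℤ) ^ 2 = |α| * m ^ 2 + |β| * m ^ 2 + |γ| * m ^ 2 + m ^ 2 := by ring
      rw [t6]
      linarith
    have hDm : D * m ^ 2 < n := by
      have q1 : (m * (2 * D)) ^ 2 ≤ R ^ 2 := Nat.pow_le_pow_left hmR 2
      have hR0 : 0 < R := by omega
      have q2 : 0 < R ^ 2 := by positivity
      nlinarith
    have hDm' : (D : ℤ) * (m : ℤ) ^ 2 < n := by exact_mod_cast hDm
    have hb' := abs_le.1 hb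
    rcases hs with rfl | rfl
    · linarith [hb'.2]
    · linarith [hb'.1]
  have e1 : {x ∈ Box (fun _ : Fin 2 => (0 : ℤ)) (fun _ => (m : ℤ)) | 0 < s * Val (Bin (-α) (-β) (-γ)) 0 (s * n) x} =
      Box (fun _ : Fin 2 => (0 : ℤ)) (fun _ => (m : ℤ)) := by
    ext x
    simp only [Set.mem_ofPred_eq, and_iff_left_iff_imp]
    exact hpos x
  have e2 : (Box (fun _ : Fin 2 => (0 : ℤ)) (fun _ => (m : ℤ))).ncard = m ^ 2 := by
    have := ncard_box (fun _ : Fin 2 => (0 : ℤ)) (fun _ => (m : ℤ)) (fun _ => True)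
    simp only [and_true] at this
    unfold Box
    rw [this]
    simp [Fintype.card_piFinset]
  rw [e1, e2] at h1
  rw [ncard_pair (fun x y => (0 < x ∧ x ^ 2 ≤ n) ∧ (0 < y ∧ y ^ 2 ≤ n) ∧
    ∃ t ∈ S, 0 < s * t ∧ s * n = (α * x ^ 2 + β * x * y + γ * y ^ 2) + t)]
  have hsub : {x ∈ Box (fun _ : Fin 2 => (0 : ℤ)) (fun _ => (m : ℤ)) | 0 < s * Val (Bin (-α) (-β) (-γ)) 0 (s * n) x ∧
      Val (Bin (-α) (-β) (-γ)) 0 (s * n) x ∈ S} ⊆ {x : Fin 2 → ℤ | (0 < x 0 ∧ x 0 ^ 2 ≤ n) ∧ (0 < x 1 ∧ x 1 ^ 2 ≤ n) ∧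
      ∃ t ∈ S, 0 < s * t ∧ s * n = (α * x 0 ^ 2 + β * x 0 * x 1 + γ * x 1 ^ 2) + t} := by
    rintro x ⟨q1, q2, q3⟩
    have hsq : ∀ t : ℤ, 0 < t → t ≤ m → t ^ 2 ≤ n := by
      intro t ht0 ht
      have p1 : t ^ 2 ≤ (m : ℤ) ^ 2 := pow_le_pow_left₀ ht0.le ht 2
      have p2 : m ^ 2 ≤ n := (Nat.pow_le_pow_left hmle 2).trans hRn
      have p3 : (m : ℤ) ^ 2 ≤ n := by exact_mod_cast p2
      linarith
    refine ⟨⟨(q1 0).1, hsq _ (q1 0).1 (q1 0).2⟩, ⟨(q1 1).1, hsq _ (q1 1).1 (q1 1).2⟩,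
      Val (Bin (-α) (-β) (-γ)) 0 (s * n) x, q3, q2, ?_⟩
    rw [hval]; ring
  have hfin : {x : Fin 2 → ℤ | (0 < x 0 ∧ x 0 ^ 2 ≤ n) ∧ (0 < x 1 ∧ x 1 ^ 2 ≤ n) ∧
      ∃ t ∈ S, 0 < s * t ∧ s * n = (α * x 0 ^ 2 + β * x 0 * x 1 + γ * x 1 ^ 2) + t}.Finite := by
    apply (box_finite (fun _ : Fin 2 => (0 : ℤ)) (fun _ => (n : ℤ))).subset
    rintro x ⟨⟨q1, q2⟩, ⟨q3, q4⟩, -⟩ i
    fin_cases i
    · simp only [Fin.zero_eta]; exact ⟨q1, by nlinarith⟩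
    · simp only [Fin.mk_one]; exact ⟨q3, by nlinarith⟩
  have h2 := Set.ncard_le_ncard hsub hfin
  have h2r : ({x ∈ Box (fun _ : Fin 2 => (0 : ℤ)) (fun _ => (m : ℤ)) | 0 < s * Val (Bin (-α) (-β) (-γ)) 0 (s * n) x ∧
      Val (Bin (-α) (-β) (-γ)) 0 (s * n) x ∈ S}.ncard : ℝ) ≤ ({x : Fin 2 → ℤ | (0 < x 0 ∧ x 0 ^ 2 ≤ n) ∧ (0 < x 1 ∧ x 1 ^ 2 ≤ n) ∧
      ∃ t ∈ S, 0 < s * t ∧ s * n = (α * x 0 ^ 2 + β * x 0 * x 1 + γ * x 1 ^ 2) + t}.ncard : ℝ) := by exact_mod_cast h2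
  refine le_trans ?_ h2r
  have h3 := (abs_le.1 h1).1
  have hmr : (R : ℝ) ≤ 4 * D * m := by exact_mod_cast hm4
  have h4 : (R : ℝ) ^ 2 / (16 * D ^ 2) ≤ m ^ 2 := by
    rw [div_le_iff₀ (by positivity)]
    calc (R : ℝ) ^ 2 ≤ (4 * D * m) ^ 2 := pow_le_pow_left₀ (by positivity) hmr 2
      _ = _ := by ring
  have h5 : (n : ℝ) ≤ 4 * R ^ 2 := by exact_mod_cast hn4
  have h6 : δ * ((R : ℝ) ^ 2 / (16 * D ^ 2)) ≤ δ * m ^ 2 := by gcongr
  have h7 : δ / (128 * D ^ 2) * (n : ℝ) ≤ δ / (128 * D ^ 2) * (4 * R ^ 2) := by gcongr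
  have h8 : δ / (128 * (D : ℝ) ^ 2) * (4 * R ^ 2) = δ * ((R : ℝ) ^ 2 / (16 * D ^ 2)) - ε * R ^ 2 := by
    rw [hε]; field_simp; ring
  push_cast at h3
  linarith

/-- (1) Let `Q` be an integral quadratic form of rank at least two in `k` variables. For every
set `S` invariant under the Collatz map on the integers, with densities `δ` and `δ'` on the two sides,
and every polynomial `P` with quadratic part `Q` and linear and constant coefficients of size at most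
`B R` and `B R ^ 2`, the number of lattice points `x` of a box in `[-R, R] ^ k` with `u < P x ≤ v` and
`P x ∈ S` is `δ` times the number of those with `P x > 0` plus `δ'` times the number of those with
`P x < 0`, up to `ε R ^ k`; `R₀` depends only on `Q`, `B` and `ε`.
(2) The number of integral points `(x, y)` with `0 < x ^ 2 + y ^ 2 ≤ N` and `x ^ 2 + y ^ 2 ∈ S` is `δ`
times the number of all with `0 < x ^ 2 + y ^ 2 ≤ N`, up to `ε N`, uniformly in `S`.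
(3) Let `s = 1` or `-1`. If `S` has an element of sign `s` and `β ^ 2 ≠ 4 α γ` then for every large `n`
there are at least `κ n` pairs of positive `x`, `y`, at most `√n`, with
`s n = α x ^ 2 + β x y + γ y ^ 2 + t` for an element `t` of `S` of sign `s`.
(4) Let `P` be a quadratic polynomial with quadratic part of rank at least two that has sign `s` at a
positive proportion of the points of the cubes `[-N, N] ^ k`. If for infinitely many `N` all but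
`o(N ^ k)` of the points of the cube with `s P x > 0` have `P x ∈ S`, then `S` contains all integers
of sign `s`.
(5) Let `P` be such a polynomial that has both signs at positive proportions of the points of the
cubes, for example `x y` or `x ^ 2 - 2 y ^ 2`. If for infinitely many `N` the trajectories of the values
of `P` at all but `o(N ^ k)` points of the cube reach the known cycles, then all integers reach the
known cycles. -/
theorem result :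
    (∀ (k : ℕ) (A : Fin k → Fin k → ℤ), RankTwo A → ∀ B ε : ℝ, 0 < B → 0 < ε → ∃ R₀ : ℕ,
      ∀ S : Set ℤ, Invariant S → ∃ δ δ' : ℝ, HasDensity 1 S δ ∧ HasDensity (-1) S δ' ∧
      ∀ R : ℕ, R₀ ≤ R → ∀ (l : Fin k → ℤ) (c : ℤ) (a b : Fin k → ℤ), (∀ i, |(l i : ℝ)| ≤ B * R) →
      |(c : ℝ)| ≤ B * R ^ 2 → (∀ i, |a i| ≤ R ∧ |b i| ≤ R) → ∀ u v : ℤ,
      |({x ∈ Box a b | (u < Val A l c x ∧ Val A l c x ≤ v) ∧ Val A l c x ∈ S}.ncard : ℝ)
        - δ * {x ∈ Box a b | (u < Val A l c x ∧ Val A l c x ≤ v) ∧ 0 < Val A l c x}.ncard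
        - δ' * {x ∈ Box a b | (u < Val A l c x ∧ Val A l c x ≤ v) ∧ Val A l c x < 0}.ncard| ≤ ε * R ^ k) ∧
    (∀ ε : ℝ, 0 < ε → ∃ N₀ : ℕ, ∀ S : Set ℤ, Invariant S → ∃ δ : ℝ, HasDensity 1 S δ ∧ ∀ N : ℕ, N₀ ≤ N →
      |({p : ℤ × ℤ | 0 < p.1 ^ 2 + p.2 ^ 2 ∧ p.1 ^ 2 + p.2 ^ 2 ≤ N ∧ p.1 ^ 2 + p.2 ^ 2 ∈ S}.ncard : ℝ)
        - δ * {p : ℤ × ℤ | 0 < p.1 ^ 2 + p.2 ^ 2 ∧ p.1 ^ 2 + p.2 ^ 2 ≤ N}.ncard| ≤ ε * N) ∧
    (∀ s : ℤ, (s = 1 ∨ s = -1) → ∀ α β γ : ℤ, β ^ 2 ≠ 4 * α * γ → ∀ S : Set ℤ, Invariant S →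
      (∃ x ∈ S, 0 < s * x) → ∃ κ : ℝ, 0 < κ ∧ ∃ n₀ : ℕ, ∀ n : ℕ, n₀ ≤ n →
      κ * n ≤ {p : ℤ × ℤ | (0 < p.1 ∧ p.1 ^ 2 ≤ n) ∧ (0 < p.2 ∧ p.2 ^ 2 ≤ n) ∧
        ∃ t ∈ S, 0 < s * t ∧ s * n = (α * p.1 ^ 2 + β * p.1 * p.2 + γ * p.2 ^ 2) + t}.ncard) ∧
    (∀ (k : ℕ) (A : Fin k → Fin k → ℤ), RankTwo A → ∀ (l : Fin k → ℤ) (c s : ℤ), (s = 1 ∨ s = -1) →
      ∀ κ : ℝ, 0 < κ → (∀ᶠ N : ℕ in atTop, κ * N ^ k ≤ {x ∈ Cube k N | 0 < s * Val A l c x}.ncard) →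
      ∀ ψ : ℕ → ℝ, Tendsto ψ atTop (𝓝 0) → ∀ S : Set ℤ, Invariant S →
      (∃ᶠ N : ℕ in atTop, ({x ∈ Cube k N | 0 < s * Val A l c x ∧ Val A l c x ∉ S}.ncard : ℝ) ≤ ψ N * N ^ k) →
      ∀ x : ℤ, 0 < s * x → x ∈ S) ∧
    (∀ (k : ℕ) (A : Fin k → Fin k → ℤ), RankTwo A → ∀ (l : Fin k → ℤ) (c : ℤ) (κ : ℝ), 0 < κ →
      (∀ᶠ N : ℕ in atTop, κ * N ^ k ≤ {x ∈ Cube k N | 0 < Val A l c x}.ncard ∧
        κ * N ^ k ≤ {x ∈ Cube k N | Val A l c x < 0}.ncard) →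
      ∀ ψ : ℕ → ℝ, Tendsto ψ atTop (𝓝 0) →
      (∃ᶠ N : ℕ in atTop, ({x ∈ Cube k N | ¬ Reaches (Val A l c x)}.ncard : ℝ) ≤ ψ N * N ^ k) →
      ∀ x : ℤ, Reaches x) := by
  refine ⟨fun k A hA B ε hB hε => main A hA hB hε, fun ε hε => two_squares hε,
    fun s hs α β γ hdisc S hS hne => represent hs hdisc hS hne,
    fun k A hA l c s hs κ hκ hpos ψ hψ S hS h => reduction A hA l c hs hκ hpos hψ hS h, ?_⟩
  intro k A hA l c κ hκ hpos ψ hψ h x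
  have key : ∀ s : ℤ, (s = 1 ∨ s = -1) → ∀ x : ℤ, 0 < s * x → Reaches x := by
    intro s hs x hx
    have := reduction A hA l c hs hκ (by
      filter_upwards [hpos] with N hN
      rcases hs with rfl | rfl
      · simpa using hN.1
      · have e : {x ∈ Cube k N | 0 < -1 * Val A l c x} = {x ∈ Cube k N | Val A l c x < 0} := by
          ext x
          simp only [Set.mem_ofPred_eq]
          constructor
          · rintro ⟨q1, q2⟩; exact ⟨q1, by omega⟩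
          · rintro ⟨q1, q2⟩; exact ⟨q1, by omega⟩
        rw [e]; exact hN.2) hψ reaches_inv (h.mono fun N hN => by
      refine le_trans ?_ hN
      have hsub : {x ∈ Cube k N | 0 < s * Val A l c x ∧ Val A l c x ∉ {x | Reaches x}} ⊆
          {x ∈ Cube k N | ¬ Reaches (Val A l c x)} := by
        rintro x ⟨q1, -, q3⟩
        exact ⟨q1, q3⟩
      have hfin : {x ∈ Cube k N | ¬ Reaches (Val A l c x)}.Finite := by
        apply (box_finite (fun _ : Fin k => -(N : ℤ) - 1) (fun _ => (N : ℤ))).subset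
        rw [← cube_eq]
        exact fun x hx => hx.1
      exact_mod_cast Set.ncard_le_ncard hsub hfin) x hx
    exact this
  rcases lt_trichotomy x 0 with hx | hx | hx
  · exact key (-1) (Or.inr rfl) x (by omega)
  · rw [hx]; exact ⟨0, by decide⟩
  · exact key 1 (Or.inl rfl) x (by omega)

end Pool.Agent.Results.MP_d02c56_nt.QuadraticPolynomials
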